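import Mathlib.Analysis.InnerProductSpace.PiL2
import Mathlib.Geometry.Euclidean.Inversion.Basic
import Mathlib.LinearAlgebra.CrossProduct
import Mathlib.Order.CompletePartialOrder

/-!
Definitions for the curved chessboard question: circles, circular arcs and grids of arcs in
Euclidean 3-space, the three model families (C), (D), (E), and compositions of inversions.
-/

namespace Pool.Agent.MP_d8c3a3_gt

/-- Euclidean 3-space. -/
abbrev E3 : Type := EuclideanSpace ℝ (Fin 3)

/-- A circle: the points at distance `r > 0` from `c` in the plane through `c` with normal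
`n ≠ 0`. -/
def IsCircle (C : Set E3) : Prop :=
  ∃ (c n : E3) (r : ℝ), n ≠ 0 ∧ 0 < r ∧ C = {x | inner ℝ (x - c) n = 0 ∧ dist x c = r}

/-- A circular arc: a connected subset of a circle with more than one point. -/
def IsArc (A : Set E3) : Prop :=
  ∃ C : Set E3, IsCircle C ∧ A ⊆ C ∧ IsConnected A ∧ A.Nontrivial

/-- An `n × n` grid of arcs: two collections of `n + 1` pairwise disjoint circular arcs such that
every arc of the first collection meets every arc of the second. -/
def IsGrid (n : ℕ) (A B : Fin (n + 1) → Set E3) : Prop :=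
  (∀ i, IsArc (A i)) ∧ (∀ j, IsArc (B j)) ∧
    (∀ i i', i ≠ i' → Disjoint (A i) (A i')) ∧ (∀ j j', j ≠ j' → Disjoint (B j) (B j')) ∧
    ∀ i j, (A i ∩ B j).Nonempty

/-- Type (E): the set of sums `p + q` for two circles. -/
def IsTypeE (S : Set E3) : Prop :=
  ∃ α β : Set E3, IsCircle α ∧ IsCircle β ∧ S = {x | ∃ p ∈ α, ∃ q ∈ β, x = p + q}

/-- The cross product on Euclidean 3-space. -/
noncomputable def cross (p q : E3) : E3 := WithLp.toLp 2 (crossProduct p.ofLp q.ofLp)

/-- Type (C): the set of points `2 (p × q) / |p + q|^2` for two circles in the unit sphere. -/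
def IsTypeC (S : Set E3) : Prop :=
  ∃ α β : Set E3, IsCircle α ∧ IsCircle β ∧ α ⊆ Metric.sphere 0 1 ∧ β ⊆ Metric.sphere 0 1 ∧
    S = {x | ∃ p ∈ α, ∃ q ∈ β, p + q ≠ 0 ∧ x = (2 / ‖p + q‖ ^ 2) • cross p q}

/-- Type (D): the zero set of `Q(x, y, z, x^2 + y^2 + z^2)` for `Q` of degree `1` or `2`, the
trivial case of the whole space (`Q` a multiple of `t - x^2 - y^2 - z^2`) being excluded. -/
def IsTypeD (S : Set E3) : Prop :=
  ∃ Q : MvPolynomial (Fin 4) ℝ, (Q.totalDegree = 1 ∨ Q.totalDegree = 2) ∧
    S = {x | MvPolynomial.eval ![x 0, x 1, x 2, x 0 ^ 2 + x 1 ^ 2 + x 2 ^ 2] Q = 0} ∧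
    S ≠ Set.univ

/-- The composition of the inversions in the spheres with the listed centres and radii. -/
noncomputable def inversions : List (E3 × ℝ) → E3 → E3
  | [] => id
  | cr :: L => EuclideanGeometry.inversion cr.1 cr.2 ∘ inversions L

end Pool.Agent.MP_d8c3a3_gt
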