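import Mathlib.Tactic.ENatToNat
import Mathlib.Data.Int.Star
import Mathlib.Algebra.Order.Ring.Star
import Mathlib.Algebra.Order.Archimedean.Real.Hom
import Mathlib.Algebra.Ring.IsFormallyReal
import Mathlib.RingTheory.WittVector.IsPoly
import Mathlib.Tactic.Polynomial.Basic
import Mathlib.Tactic.ReduceModChar
import Pool.Agent.MP_d8c3a3_gt.Defs

-- ======== part 0: formerly Pool.Agent.MP_d8c3a3_gt.Moebius
section MrgPart0

/-!
The light-cone model: points of 3-space are lifted to null vectors of a Lorentzian form on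
five-dimensional space, and compositions of inversions become linear similitudes.
-/

namespace Pool.Agent.MP_d8c3a3_gt

abbrev V5 : Type := Fin 5 → ℝ

/-- The Lorentzian quadratic form. -/
def qf {R : Type*} [CommRing R] (X : Fin 5 → R) : R :=
  X 1 ^ 2 + X 2 ^ 2 + X 3 ^ 2 - X 0 * X 4

/-- Its polar form. -/
def bf {R : Type*} [CommRing R] (X Y : Fin 5 → R) : R :=
  2 * X 1 * Y 1 + 2 * X 2 * Y 2 + 2 * X 3 * Y 3 - X 0 * Y 4 - X 4 * Y 0

/-- The lift of a point to the light cone. -/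
def lift (x : E3) : V5 := ![1, x 0, x 1, x 2, x 0 ^ 2 + x 1 ^ 2 + x 2 ^ 2]

theorem qf_lift (x : E3) : qf (lift x) = 0 := by simp [qf, lift]

theorem qf_smul (c : ℝ) (X : V5) : qf (c • X) = c ^ 2 * qf X := by simp [qf]; ring

theorem bf_smul (c d : ℝ) (X Y : V5) : bf (c • X) (d • Y) = c * d * bf X Y := by
  simp [bf]; ring

theorem bf_self (X : V5) : bf X X = 2 * qf X := by simp [bf, qf]; ring

theorem dist_sq (x c : E3) :
    dist x c ^ 2 = (x 0 - c 0) ^ 2 + (x 1 - c 1) ^ 2 + (x 2 - c 2) ^ 2 := by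
  rw [EuclideanSpace.dist_eq, Real.sq_sqrt (by positivity)]
  simp [Fin.sum_univ_three, Real.dist_eq, sq_abs]

/-- The linear map of an inversion. -/
def invMap (c : E3) (R : ℝ) : V5 →ₗ[ℝ] V5 where
  toFun X :=
    let ρ := X 4 - 2 * (c 0 * X 1 + c 1 * X 2 + c 2 * X 3) + (c 0 ^ 2 + c 1 ^ 2 + c 2 ^ 2) * X 0
    ![ρ, ρ * c 0 + R ^ 2 * (X 1 - X 0 * c 0), ρ * c 1 + R ^ 2 * (X 2 - X 0 * c 1),
      ρ * c 2 + R ^ 2 * (X 3 - X 0 * c 2),
      ρ * (c 0 ^ 2 + c 1 ^ 2 + c 2 ^ 2) +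
        2 * R ^ 2 * (c 0 * (X 1 - X 0 * c 0) + c 1 * (X 2 - X 0 * c 1) + c 2 * (X 3 - X 0 * c 2))
        + R ^ 4 * X 0]
  map_add' X Y := by
    funext k; fin_cases k <;> simp <;> ring
  map_smul' a X := by
    funext k; fin_cases k <;> simp <;> ring

theorem invMap_invMap (c : E3) (R : ℝ) (X : V5) : invMap c R (invMap c R X) = R ^ 4 • X := by
  funext k; fin_cases k <;> simp [invMap] <;> ring

theorem qf_invMap (c : E3) (R : ℝ) (X : V5) : qf (invMap c R X) = R ^ 4 * qf X := by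
  simp [invMap, qf]; ring

theorem invMap_lift (c : E3) (R : ℝ) (x : E3) (hx : x ≠ c) :
    invMap c R (lift x) = dist x c ^ 2 • lift (EuclideanGeometry.inversion c R x) := by
  have hd : dist x c ≠ 0 := dist_ne_zero.2 hx
  have hk : ∀ k, EuclideanGeometry.inversion c R x k
      = R ^ 2 / dist x c ^ 2 * (x k - c k) + c k := by
    intro k
    simp [EuclideanGeometry.inversion, div_pow]
  have hs := dist_sq x c
  set D := dist x c ^ 2 with hD
  have hD0 : D ≠ 0 := pow_ne_zero 2 hd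
  funext k; fin_cases k <;> simp [invMap, lift, hk]
  · linear_combination -hs
  · field_simp; linear_combination (-c 0) * hs
  · field_simp; linear_combination (-c 1) * hs
  · field_simp; linear_combination (-c 2) * hs
  · field_simp
    linear_combination (R ^ 4 - D * (c 0 ^ 2 + c 1 ^ 2 + c 2 ^ 2)) * hs

theorem inversions_injective (L : List (E3 × ℝ)) (hL : ∀ cr ∈ L, 0 < cr.2) :
    Function.Injective (inversions L) := by
  induction L with
  | nil => exact Function.injective_id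
  | cons cr L ih =>
    have h1 := hL cr (List.mem_cons_self ..)
    exact (EuclideanGeometry.inversion_injective cr.1 h1.ne').comp
      (ih fun x hx => hL x (List.mem_cons_of_mem _ hx))

/-- A composition of inversions is, off a finite set, the action of a linear similitude. -/
theorem exists_similitude (L : List (E3 × ℝ)) (hL : ∀ cr ∈ L, 0 < cr.2) :
    ∃ (S T : V5 →ₗ[ℝ] V5) (lam : ℝ) (Z : Set E3), lam ≠ 0 ∧ (∀ X, S (T X) = X) ∧
      (∀ X, T (S X) = X) ∧ (∀ X, qf (S X) = lam * qf X) ∧ Z.Finite ∧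
      ∀ x, x ∉ Z → ∃ μ : ℝ, μ ≠ 0 ∧ lift x = μ • S (lift (inversions L x)) := by
  induction L with
  | nil =>
    exact ⟨LinearMap.id, LinearMap.id, 1, ∅, one_ne_zero, fun _ => rfl, fun _ => rfl, by simp,
      Set.finite_empty, fun x _ => ⟨1, one_ne_zero, by simp [inversions]⟩⟩
  | cons cr L ih =>
    have h1 := hL cr (List.mem_cons_self ..)
    have hL' : ∀ x ∈ L, 0 < x.2 := fun x hx => hL x (List.mem_cons_of_mem _ hx)
    obtain ⟨S, T, lam, Z, hlam, hST, hTS, hq, hZ, hx⟩ := ih hL'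
    have hR : cr.2 ^ 4 ≠ 0 := pow_ne_zero 4 h1.ne'
    refine ⟨S ∘ₗ invMap cr.1 cr.2, (cr.2 ^ 4)⁻¹ • (invMap cr.1 cr.2 ∘ₗ T), lam * cr.2 ^ 4,
      Z ∪ inversions L ⁻¹' {cr.1}, mul_ne_zero hlam hR, ?_, ?_, ?_, ?_, ?_⟩
    · intro X
      simp [invMap_invMap, hST, smul_smul, hR]
    · intro X
      simp [invMap_invMap, hTS, smul_smul, hR]
    · intro X
      simp [hq, qf_invMap, mul_assoc]
    · exact hZ.union ((Set.finite_singleton _).preimage (inversions_injective L hL').injOn)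
    · intro x hxZ
      simp only [Set.mem_union, Set.mem_preimage, Set.mem_singleton_iff, not_or] at hxZ
      obtain ⟨μ, hμ, e⟩ := hx x hxZ.1
      have hd : dist (inversions L x) cr.1 ^ 2 ≠ 0 := pow_ne_zero 2 (dist_ne_zero.2 hxZ.2)
      have h2 := congrArg (invMap cr.1 cr.2) (invMap_lift cr.1 cr.2 _ hxZ.2)
      rw [invMap_invMap, map_smul] at h2
      refine ⟨μ * ((cr.2 ^ 4)⁻¹ * dist (inversions L x) cr.1 ^ 2),
        mul_ne_zero hμ (mul_ne_zero (inv_ne_zero hR) hd), ?_⟩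
      have h3 : lift (inversions L x) = ((cr.2 ^ 4)⁻¹ * dist (inversions L x) cr.1 ^ 2) •
          invMap cr.1 cr.2 (lift (EuclideanGeometry.inversion cr.1 cr.2 (inversions L x))) := by
        rw [mul_smul, ← h2, smul_smul, inv_mul_cancel₀ hR, one_smul]
      rw [e]
      conv_lhs => rw [h3]
      simp [inversions, smul_smul]

end Pool.Agent.MP_d8c3a3_gt

end MrgPart0

-- ======== part 1: formerly Pool.Agent.MP_d8c3a3_gt.Param
section MrgPart1

/-!
Sets of type (C) and (E) are swept by a map from the torus to the light cone that is affine in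
each of the two unit-circle variables.
-/

namespace Pool.Agent.MP_d8c3a3_gt

theorem inner_eq (x y : E3) : inner ℝ x y = x 0 * y 0 + x 1 * y 1 + x 2 * y 2 := by
  simp [PiLp.inner_apply, Fin.sum_univ_three]; ring

theorem norm_sq_eq (x : E3) : ‖x‖ ^ 2 = x 0 ^ 2 + x 1 ^ 2 + x 2 ^ 2 := by
  rw [EuclideanSpace.norm_eq, Real.sq_sqrt (by positivity)]
  simp [Fin.sum_univ_three, sq_abs]

theorem IsCircle.param {C : Set E3} (h : IsCircle C) :
    ∃ (c u v : E3) (r : ℝ), inner ℝ u u = r ^ 2 ∧ inner ℝ v v = r ^ 2 ∧ inner ℝ u v = 0 ∧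
      ∀ x, x ∈ C ↔ ∃ a b : ℝ, a ^ 2 + b ^ 2 = 1 ∧ x = c + a • u + b • v := by
  obtain ⟨c, n, r, hn, hr, rfl⟩ := h
  have hrank : Module.finrank ℝ (ℝ ∙ n)ᗮ = 2 := by
    have : Fact (Module.finrank ℝ E3 = 2 + 1) := ⟨by simp⟩
    exact Submodule.finrank_orthogonal_span_singleton hn
  let e : OrthonormalBasis (Fin 2) ℝ (ℝ ∙ n)ᗮ :=
    (stdOrthonormalBasis ℝ (ℝ ∙ n)ᗮ).reindex (finCongr hrank)
  have h00 : inner ℝ (e 0 : E3) (e 0 : E3) = 1 := by
    have := e.orthonormal.1 0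
    rw [real_inner_self_eq_norm_sq]
    have h2 : ‖(e 0 : E3)‖ = 1 := this
    rw [h2]; norm_num
  have h11 : inner ℝ (e 1 : E3) (e 1 : E3) = 1 := by
    have := e.orthonormal.1 1
    rw [real_inner_self_eq_norm_sq]
    have h2 : ‖(e 1 : E3)‖ = 1 := this
    rw [h2]; norm_num
  have h01 : inner ℝ (e 0 : E3) (e 1 : E3) = 0 := e.orthonormal.2 (by decide : (0 : Fin 2) ≠ 1)
  have h10 : inner ℝ (e 1 : E3) (e 0 : E3) = 0 := by rw [real_inner_comm]; exact h01
  have hn0 : inner ℝ (e 0 : E3) n = 0 :=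
    (Submodule.mem_orthogonal_singleton_iff_inner_left).1 (e 0).2
  have hn1 : inner ℝ (e 1 : E3) n = 0 :=
    (Submodule.mem_orthogonal_singleton_iff_inner_left).1 (e 1).2
  have hnorm : ∀ s t : ℝ, ‖s • (e 0 : E3) + t • (e 1 : E3)‖ ^ 2 = s ^ 2 + t ^ 2 := by
    intro s t
    rw [← real_inner_self_eq_norm_sq]
    simp only [inner_add_left, inner_add_right, real_inner_smul_left, real_inner_smul_right,
      h00, h11, h01, h10]
    ring
  refine ⟨c, r • (e 0 : E3), r • (e 1 : E3), r, ?_, ?_, ?_, ?_⟩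
  · simp only [real_inner_smul_left, real_inner_smul_right, h00]; ring
  · simp only [real_inner_smul_left, real_inner_smul_right, h11]; ring
  · simp only [real_inner_smul_left, real_inner_smul_right, h01]; ring
  · intro x
    constructor
    · rintro ⟨h1, h2⟩
      have hmem : x - c ∈ (ℝ ∙ n)ᗮ := (Submodule.mem_orthogonal_singleton_iff_inner_left).2 h1
      have hsum := e.sum_repr ⟨x - c, hmem⟩
      rw [Fin.sum_univ_two] at hsum
      set s := e.repr ⟨x - c, hmem⟩ 0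
      set t := e.repr ⟨x - c, hmem⟩ 1
      have hx : s • (e 0 : E3) + t • (e 1 : E3) = x - c := by
        simpa using congrArg Subtype.val hsum
      have hst : s ^ 2 + t ^ 2 = r ^ 2 := by
        rw [← hnorm, hx, ← dist_eq_norm, h2]
      refine ⟨s / r, t / r, ?_, ?_⟩
      · field_simp; exact hst
      · rw [smul_smul, smul_smul, div_mul_cancel₀ _ hr.ne', div_mul_cancel₀ _ hr.ne', add_assoc, hx]
        simp
    · rintro ⟨a, b, hab, rfl⟩
      have hx : c + a • r • (e 0 : E3) + b • r • (e 1 : E3) - c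
          = (a * r) • (e 0 : E3) + (b * r) • (e 1 : E3) := by
        rw [smul_smul, smul_smul]; abel
      refine ⟨?_, ?_⟩
      · rw [hx]
        simp only [inner_add_left, real_inner_smul_left, hn0, hn1]; ring
      · rw [dist_eq_norm, hx]
        have := hnorm (a * r) (b * r)
        have h3 : (a * r) ^ 2 + (b * r) ^ 2 = r ^ 2 := by linear_combination r ^ 2 * hab
        rw [h3] at this
        exact (pow_left_inj₀ (norm_nonneg _) hr.le two_ne_zero).1 this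

/-- A map of two unit-circle variables, affine in each. -/
def tor (M : Fin 3 → Fin 3 → V5) (a b a' b' : ℝ) : V5 :=
  (M 0 0 + a • M 1 0 + b • M 2 0) + a' • (M 0 1 + a • M 1 1 + b • M 2 1)
    + b' • (M 0 2 + a • M 1 2 + b • M 2 2)

theorem map_tor (S : V5 →ₗ[ℝ] V5) (M : Fin 3 → Fin 3 → V5) (a b a' b' : ℝ) :
    S (tor M a b a' b') = tor (fun i j => S (M i j)) a b a' b' := by
  simp [tor]

/-- The set `S` is swept by a torus map into the light cone. -/
def Swept (S : Set E3) : Prop :=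
  ∃ M : Fin 3 → Fin 3 → V5,
    (∀ a b a' b' : ℝ, a ^ 2 + b ^ 2 = 1 → a' ^ 2 + b' ^ 2 = 1 →
      tor M a b a' b' ≠ 0 ∧ qf (tor M a b a' b') = 0) ∧
    ∀ y ∈ S, ∃ a b a' b' ν : ℝ, a ^ 2 + b ^ 2 = 1 ∧ a' ^ 2 + b' ^ 2 = 1 ∧
      lift y = ν • tor M a b a' b'

theorem IsTypeE.swept {S : Set E3} (h : IsTypeE S) : Swept S := by
  obtain ⟨α, β, hα, hβ, rfl⟩ := h
  obtain ⟨c, u, v, r, huu, hvv, huv, hα⟩ := hα.param
  obtain ⟨c', u', v', r', huu', hvv', huv', hβ⟩ := hβ.param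
  rw [inner_eq] at huu hvv huv huu' hvv' huv'
  let d : E3 → E3 → ℝ := fun x y => x 0 * y 0 + x 1 * y 1 + x 2 * y 2
  let M : Fin 3 → Fin 3 → V5 :=
    ![![![1, c 0 + c' 0, c 1 + c' 1, c 2 + c' 2, d c c + r ^ 2 + d c' c' + r' ^ 2 + 2 * d c c'],
        ![0, u' 0, u' 1, u' 2, 2 * d c' u' + 2 * d c u'],
        ![0, v' 0, v' 1, v' 2, 2 * d c' v' + 2 * d c v']],
      ![![0, u 0, u 1, u 2, 2 * d c u + 2 * d u c'], ![0, 0, 0, 0, 2 * d u u'],
        ![0, 0, 0, 0, 2 * d u v']],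
      ![![0, v 0, v 1, v 2, 2 * d c v + 2 * d v c'], ![0, 0, 0, 0, 2 * d v u'],
        ![0, 0, 0, 0, 2 * d v v']]]
  have key : ∀ a b a' b' : ℝ, a ^ 2 + b ^ 2 = 1 → a' ^ 2 + b' ^ 2 = 1 →
      lift ((c + a • u + b • v) + (c' + a' • u' + b' • v')) = tor M a b a' b' := by
    intro a b a' b' hab hab'
    funext k
    fin_cases k <;> simp [lift, tor, M, d]
    · ring
    · ring
    · ring
    · linear_combination a ^ 2 * huu + b ^ 2 * hvv + 2 * a * b * huv + r ^ 2 * hab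
        + a' ^ 2 * huu' + b' ^ 2 * hvv' + 2 * a' * b' * huv' + r' ^ 2 * hab'
  refine ⟨M, ?_, ?_⟩
  · intro a b a' b' hab hab'
    rw [← key a b a' b' hab hab']
    refine ⟨fun h0 => ?_, qf_lift _⟩
    have := congrFun h0 0
    simp [lift] at this
  · rintro y ⟨p, hp, q, hq, rfl⟩
    obtain ⟨a, b, hab, rfl⟩ := (hα p).1 hp
    obtain ⟨a', b', hab', rfl⟩ := (hβ q).1 hq
    exact ⟨a, b, a', b', 1, hab, hab', by rw [one_smul, key a b a' b' hab hab']⟩

/-- The bilinear map behind type (C). -/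
def cl (s : ℝ) (p q : E3) : V5 :=
  ![s + (p 0 * q 0 + p 1 * q 1 + p 2 * q 2), p 1 * q 2 - p 2 * q 1, p 2 * q 0 - p 0 * q 2,
    p 0 * q 1 - p 1 * q 0, s - (p 0 * q 0 + p 1 * q 1 + p 2 * q 2)]

theorem IsTypeC.swept {S : Set E3} (h : IsTypeC S) : Swept S := by
  obtain ⟨α, β, hα, hβ, hαs, hβs, rfl⟩ := h
  obtain ⟨c, u, v, r, -, -, -, hα⟩ := hα.param
  obtain ⟨c', u', v', r', -, -, -, hβ⟩ := hβ.param
  let M : Fin 3 → Fin 3 → V5 :=
    ![![cl 1 c c', cl 0 c u', cl 0 c v'], ![cl 0 u c', cl 0 u u', cl 0 u v'],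
      ![cl 0 v c', cl 0 v u', cl 0 v v']]
  have key : ∀ a b a' b' : ℝ,
      cl 1 (c + a • u + b • v) (c' + a' • u' + b' • v') = tor M a b a' b' := by
    intro a b a' b'
    funext k
    fin_cases k <;> simp [cl, tor, M] <;> ring
  have unit : ∀ p : E3, p ∈ Metric.sphere (0 : E3) 1 → p 0 ^ 2 + p 1 ^ 2 + p 2 ^ 2 = 1 := by
    intro p hp
    rw [← norm_sq_eq]
    have : ‖p‖ = 1 := by simpa using hp
    rw [this]; norm_num
  refine ⟨M, ?_, ?_⟩
  · intro a b a' b' hab hab'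
    rw [← key a b a' b']
    have hp := unit _ (hαs ((hα _).2 ⟨a, b, hab, rfl⟩))
    have hq := unit _ (hβs ((hβ _).2 ⟨a', b', hab', rfl⟩))
    generalize c + a • u + b • v = p at hp
    generalize c' + a' • u' + b' • v' = q at hq
    refine ⟨fun h0 => ?_, ?_⟩
    · have h1 := congrFun h0 0
      have h2 := congrFun h0 4
      simp [cl] at h1 h2
      linarith
    · simp [qf, cl]
      linear_combination (q 0 ^ 2 + q 1 ^ 2 + q 2 ^ 2) * hp + hq
  · rintro y ⟨p, hp, q, hq, hpq, rfl⟩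
    have hp1 := unit _ (hαs hp)
    have hq1 := unit _ (hβs hq)
    obtain ⟨a, b, hab, hpe⟩ := (hα p).1 hp
    obtain ⟨a', b', hab', hqe⟩ := (hβ q).1 hq
    refine ⟨a, b, a', b', 2 / ‖p + q‖ ^ 2, hab, hab', ?_⟩
    rw [← key a b a' b', ← hpe, ← hqe]
    have hN : ‖p + q‖ ^ 2 = 2 * (1 + (p 0 * q 0 + p 1 * q 1 + p 2 * q 2)) := by
      rw [norm_sq_eq]; simp; linear_combination hp1 + hq1
    have hN0 : ‖p + q‖ ^ 2 ≠ 0 := pow_ne_zero 2 (norm_ne_zero_iff.2 hpq)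
    generalize ‖p + q‖ ^ 2 = N at hN hN0
    funext k
    fin_cases k <;> simp [lift, cl, cross, crossProduct]
    · field_simp; linear_combination hN
    · field_simp
      linear_combination 2 * (q 0 ^ 2 + q 1 ^ 2 + q 2 ^ 2) * hp1 + 2 * hq1
        - (1 - (p 0 * q 0 + p 1 * q 1 + p 2 * q 2)) * hN

end Pool.Agent.MP_d8c3a3_gt

end MrgPart1

-- ======== part 2: formerly Pool.Agent.MP_d8c3a3_gt.Arc
section MrgPart2

/-!
Circular arcs given by three integer control vectors in the light-cone model.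
-/

namespace Pool.Agent.MP_d8c3a3_gt

/-- The value of a linear form. -/
def dot {R : Type*} [CommRing R] (l X : Fin 5 → R) : R :=
  l 0 * X 0 + l 1 * X 1 + l 2 * X 2 + l 3 * X 3 + l 4 * X 4

/-- The cubic form whose zero set carries the grid. -/
def Gf {R : Type*} [CommRing R] (X : Fin 5 → R) : R :=
  (X 1 + X 4) ^ 2 * (5 * X 1 - 3 * X 4) + (X 1 + X 4) * X 2 * X 3
    + X 2 ^ 2 * (5 * X 0 + 33 * X 1 - 12 * X 4)

/-- The quadratic Bezier map with control vectors `V`. -/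
def bez {R : Type*} [CommRing R] (V : Fin 3 → Fin 5 → ℤ) (a b : R) : Fin 5 → R :=
  fun k => a ^ 2 * (V 0 k : R) + 2 * a * b * (V 1 k : R) + b ^ 2 * (V 2 k : R)

/-- A linear form with integer coefficients, read over another ring. -/
def cst {R : Type*} [CommRing R] (l : Fin 5 → ℤ) : Fin 5 → R := fun k => (l k : R)

/-- The point of 3-space with parameter `s`. -/
noncomputable def pt (V : Fin 3 → Fin 5 → ℤ) (s : ℝ) : E3 :=
  !₂[bez V (1 - s) s 1 / bez V (1 - s) s 0, bez V (1 - s) s 2 / bez V (1 - s) s 0,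
    bez V (1 - s) s 3 / bez V (1 - s) s 0]

/-- The arc with control vectors `V`. -/
def arc (V : Fin 3 → Fin 5 → ℤ) : Set E3 := pt V '' Set.Icc 0 1

/-- Integer conditions making the control vectors `V` and the two forms `N` describe a circle. -/
def Nice (V : Fin 3 → Fin 5 → ℤ) (N : Fin 2 → Fin 5 → ℤ) : Prop :=
  bf (V 0) (V 0) = 0 ∧ bf (V 0) (V 1) = 0 ∧ bf (V 1) (V 2) = 0 ∧ bf (V 2) (V 2) = 0 ∧
    2 * bf (V 1) (V 1) + bf (V 0) (V 2) = 0 ∧ bf (V 0) (V 2) ≠ 0 ∧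
    0 < V 0 0 ∧ V 1 0 ^ 2 < V 0 0 * V 2 0 ∧ (∀ m r, dot (N m) (V r) = 0) ∧
    N 0 4 = 0 ∧ (N 0 1 ≠ 0 ∨ N 0 2 ≠ 0 ∨ N 0 3 ≠ 0) ∧ N 1 4 = 1 ∧
    ∀ t ∈ ([-3, -2, -1, 0, 1, 2, 3] : List ℤ), Gf (bez V 1 t) = 0

instance (V : Fin 3 → Fin 5 → ℤ) (N : Fin 2 → Fin 5 → ℤ) : Decidable (Nice V N) := by
  unfold Nice; infer_instance

theorem dot_smul (l X : V5) (c : ℝ) : dot l (c • X) = c * dot l X := by simp [dot]; ring

theorem Gf_smul (X : V5) (c : ℝ) : Gf (c • X) = c ^ 3 * Gf X := by simp [Gf]; ring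

theorem dot_bez (l : Fin 5 → ℤ) (V : Fin 3 → Fin 5 → ℤ) (a b : ℝ) :
    dot (cst l) (bez V a b) = a ^ 2 * (dot l (V 0) : ℤ) + 2 * a * b * (dot l (V 1) : ℤ)
      + b ^ 2 * (dot l (V 2) : ℤ) := by
  simp only [dot, cst, bez]; push_cast; ring

variable {V : Fin 3 → Fin 5 → ℤ} {N : Fin 2 → Fin 5 → ℤ}

theorem Nice.bf_bez (h : Nice V N) (a b a' b' : ℝ) :
    bf (bez V a b) (bez V a' b') = (bf (V 0) (V 2) : ℤ) * (a * b' - a' * b) ^ 2 := by
  obtain ⟨h1, h2, h3, h4, h5, -⟩ := h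
  have h1 := congrArg (Int.cast : ℤ → ℝ) h1
  have h2 := congrArg (Int.cast : ℤ → ℝ) h2
  have h3 := congrArg (Int.cast : ℤ → ℝ) h3
  have h4 := congrArg (Int.cast : ℤ → ℝ) h4
  have h5 := congrArg (Int.cast : ℤ → ℝ) h5
  simp only [bf, bez] at *
  push_cast at *
  linear_combination a ^ 2 * a' ^ 2 * h1 + (2 * a ^ 2 * a' * b' + 2 * a * b * a' ^ 2) * h2
    + (2 * a * b * b' ^ 2 + 2 * b ^ 2 * a' * b') * h3 + b ^ 2 * b' ^ 2 * h4
    + 2 * a * b * a' * b' * h5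

theorem Nice.qf_bez (h : Nice V N) (a b : ℝ) : qf (bez V a b) = 0 := by
  have := h.bf_bez a b a b
  rw [bf_self] at this
  have h2 : (a * b - a * b) = 0 := sub_self _
  rw [h2] at this
  linarith

theorem Nice.pos (h : Nice V N) (s : ℝ) : 0 < bez V (1 - s) s 0 := by
  obtain ⟨-, -, -, -, -, -, h1, h2, -⟩ := h
  have h1 : (0 : ℝ) < V 0 0 := by exact_mod_cast h1
  have h2 : (V 1 0 : ℝ) ^ 2 < V 0 0 * V 2 0 := by exact_mod_cast h2
  simp only [bez]
  generalize ((V 0 0 : ℤ) : ℝ) = p at *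
  generalize ((V 1 0 : ℤ) : ℝ) = q at *
  generalize ((V 2 0 : ℤ) : ℝ) = r at *
  have key : p * ((1 - s) ^ 2 * p + 2 * (1 - s) * s * q + s ^ 2 * r)
      = ((1 - s) * p + s * q) ^ 2 + s ^ 2 * (p * r - q ^ 2) := by ring
  have : 0 < p * ((1 - s) ^ 2 * p + 2 * (1 - s) * s * q + s ^ 2 * r) := by
    rw [key]
    by_cases hs : s = 0
    · subst hs; simp; positivity
    · have : 0 < s ^ 2 * (p * r - q ^ 2) := mul_pos (by positivity) (by linarith)
      positivity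
  exact (mul_pos_iff_of_pos_left h1).1 this

theorem Nice.lift_pt (h : Nice V N) (s : ℝ) :
    bez V (1 - s) s = bez V (1 - s) s 0 • lift (pt V s) := by
  have h0 := (h.pos s).ne'
  have hq := h.qf_bez (1 - s) s
  funext k
  fin_cases k <;> simp [lift, pt] <;> field_simp
  simp only [qf] at hq
  linear_combination -hq

theorem Nice.lift_pt' (h : Nice V N) (s : ℝ) :
    lift (pt V s) = (bez V (1 - s) s 0)⁻¹ • bez V (1 - s) s := by
  conv_rhs => rw [h.lift_pt s]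
  rw [← h.lift_pt s, h.lift_pt s, smul_smul]
  simp [lift, inv_mul_cancel₀ (h.pos s).ne']

theorem Nice.eq_of_bf (h : Nice V N) {s s' : ℝ}
    (e : bf (bez V (1 - s) s) (bez V (1 - s') s') = 0) : s = s' := by
  rw [h.bf_bez] at e
  have hN : ((bf (V 0) (V 2) : ℤ) : ℝ) ≠ 0 := by exact_mod_cast h.2.2.2.2.2.1
  have := (mul_eq_zero.1 e).resolve_left hN
  have := pow_eq_zero_iff (two_ne_zero) |>.1 this
  linarith

theorem Nice.pt_injective (h : Nice V N) : Function.Injective (pt V) := by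
  intro s s' e
  apply h.eq_of_bf
  rw [h.lift_pt s, h.lift_pt s', bf_smul, e, bf_self, qf_lift]
  ring

theorem Nice.continuous_pt (h : Nice V N) : Continuous (pt V) := by
  have hc : ∀ k, Continuous fun s : ℝ => bez V (1 - s) s k := by
    intro k; simp only [bez]; fun_prop
  unfold pt
  refine (PiLp.continuous_toLp 2 _).comp (continuous_pi fun i => ?_)
  fin_cases i
  · exact (hc 1).div (hc 0) fun s => (h.pos s).ne'
  · exact (hc 2).div (hc 0) fun s => (h.pos s).ne'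
  · exact (hc 3).div (hc 0) fun s => (h.pos s).ne'

theorem Nice.dot_bez_zero (h : Nice V N) (m : Fin 2) (a b : ℝ) :
    dot (cst (N m)) (bez V a b) = 0 := by
  rw [dot_bez, h.2.2.2.2.2.2.2.2.1, h.2.2.2.2.2.2.2.2.1, h.2.2.2.2.2.2.2.2.1]
  simp

theorem Nice.dot_lift (h : Nice V N) (m : Fin 2) (s : ℝ) :
    dot (cst (N m)) (lift (pt V s)) = 0 := by
  rw [h.lift_pt', dot_smul, h.dot_bez_zero, mul_zero]

theorem Nice.Gf_bez (h : Nice V N) (a b : ℝ) : Gf (bez V a b) = 0 := by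
  have h0 := h.2.2.2.2.2.2.2.2.2.2.2.2
  have c : ∀ t : ℤ, ((Gf (bez V 1 t) : ℤ) : ℝ) = Gf (bez V (1 : ℝ) t) := by
    intro t; simp only [Gf, bez]; push_cast; ring
  have e : ∀ t ∈ ([-3, -2, -1, 0, 1, 2, 3] : List ℤ), Gf (bez V (1 : ℝ) t) = 0 := by
    intro t ht; rw [← c, h0 t ht]; simp
  have e1 := e (-3) (by simp)
  have e2 := e (-2) (by simp)
  have e3 := e (-1) (by simp)
  have e4 := e 0 (by simp)
  have e5 := e 1 (by simp)
  have e6 := e 2 (by simp)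
  have e7 := e 3 (by simp)
  simp only [Gf, bez] at e1 e2 e3 e4 e5 e6 e7 ⊢
  push_cast at e1 e2 e3 e4 e5 e6 e7
  linear_combination
    (b + 2 * a) * (b + a) * b * (b - a) * (b - 2 * a) * (b - 3 * a) / 720 * e1
    - (b + 3 * a) * (b + a) * b * (b - a) * (b - 2 * a) * (b - 3 * a) / 120 * e2
    + (b + 3 * a) * (b + 2 * a) * b * (b - a) * (b - 2 * a) * (b - 3 * a) / 48 * e3
    - (b + 3 * a) * (b + 2 * a) * (b + a) * (b - a) * (b - 2 * a) * (b - 3 * a) / 36 * e4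
    + (b + 3 * a) * (b + 2 * a) * (b + a) * b * (b - 2 * a) * (b - 3 * a) / 48 * e5
    - (b + 3 * a) * (b + 2 * a) * (b + a) * b * (b - a) * (b - 3 * a) / 120 * e6
    + (b + 3 * a) * (b + 2 * a) * (b + a) * b * (b - a) * (b - 2 * a) / 720 * e7

theorem exists_circle (l m : V5) (hl4 : l 4 = 0) (hl : l 1 ≠ 0 ∨ l 2 ≠ 0 ∨ l 3 ≠ 0)
    (hm : m 4 = 1) (x₀ y₀ : E3) (hne : x₀ ≠ y₀)
    (hx : dot l (lift x₀) = 0 ∧ dot m (lift x₀) = 0)
    (hy : dot l (lift y₀) = 0 ∧ dot m (lift y₀) = 0) :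
    ∃ C, IsCircle C ∧ ∀ x, dot l (lift x) = 0 → dot m (lift x) = 0 → x ∈ C := by
  have hD : 0 < l 1 ^ 2 + l 2 ^ 2 + l 3 ^ 2 := by
    rcases hl with h | h | h <;> positivity
  set D := l 1 ^ 2 + l 2 ^ 2 + l 3 ^ 2 with hDdef
  set lam := (-(l 0) + (l 1 * m 1 + l 2 * m 2 + l 3 * m 3) / 2) / D with hlam
  have hlamD : lam * D = -(l 0) + (l 1 * m 1 + l 2 * m 2 + l 3 * m 3) / 2 := by
    rw [hlam]; field_simp
  let c : E3 := !₂[-m 1 / 2 + lam * l 1, -m 2 / 2 + lam * l 2, -m 3 / 2 + lam * l 3]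
  let n : E3 := !₂[l 1, l 2, l 3]
  have hd : ∀ x : E3, dot l (lift x) = 0 → dot m (lift x) = 0 →
      dist x c ^ 2 = 2 * lam * l 0 - m 0 + (c 0 ^ 2 + c 1 ^ 2 + c 2 ^ 2) := by
    intro x h1 h2
    rw [dist_sq]
    simp [dot, lift, hl4, hm] at h1 h2
    simp [c]
    linear_combination h2 - 2 * lam * h1
  have hdist : ∀ x : E3, dot l (lift x) = 0 → dot m (lift x) = 0 → dist x c = dist x₀ c := by
    intro x h1 h2
    have := (hd x h1 h2).trans (hd x₀ hx.1 hx.2).symm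
    exact (pow_left_inj₀ dist_nonneg dist_nonneg two_ne_zero).1 this
  refine ⟨_, ⟨c, n, dist x₀ c, ?_, ?_, rfl⟩, ?_⟩
  · intro h0
    have h1 := congrArg (fun v : E3 => v 0) h0
    have h2 := congrArg (fun v : E3 => v 1) h0
    have h3 := congrArg (fun v : E3 => v 2) h0
    simp [n] at h1 h2 h3
    rcases hl with h | h | h <;> contradiction
  · rcases (dist_nonneg (x := x₀) (y := c)).lt_or_eq with h | h
    · exact h
    · exfalso
      have h1 := hdist y₀ hy.1 hy.2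
      rw [← h] at h1
      exact hne ((dist_eq_zero.1 h.symm).trans (dist_eq_zero.1 h1).symm)
  · intro x h1 h2
    refine ⟨?_, hdist x h1 h2⟩
    rw [inner_eq]
    simp [dot, lift, hl4] at h1
    simp [c, n]
    linear_combination h1 - hlamD

theorem Nice.isArc (h : Nice V N) : IsArc (arc V) := by
  have hne : pt V 0 ≠ pt V 1 := fun e => zero_ne_one (h.pt_injective e)
  obtain ⟨C, hC, hmem⟩ := exists_circle (cst (N 0)) (cst (N 1))
    (by simp [cst, h.2.2.2.2.2.2.2.2.2.1])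
    (by simpa [cst] using h.2.2.2.2.2.2.2.2.2.2.1)
    (by simp [cst, h.2.2.2.2.2.2.2.2.2.2.2.1]) (pt V 0) (pt V 1) hne
    ⟨h.dot_lift 0 0, h.dot_lift 1 0⟩ ⟨h.dot_lift 0 1, h.dot_lift 1 1⟩
  refine ⟨C, hC, ?_, ?_, ?_⟩
  · rintro _ ⟨s, -, rfl⟩
    exact hmem _ (h.dot_lift 0 s) (h.dot_lift 1 s)
  · exact (isConnected_Icc zero_le_one).image _ h.continuous_pt.continuousOn
  · exact ⟨pt V 0, ⟨0, by simp, rfl⟩, pt V 1, ⟨1, by simp, rfl⟩, hne⟩

variable {V' : Fin 3 → Fin 5 → ℤ} {N' : Fin 2 → Fin 5 → ℤ}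

theorem Nice.dot_eq_zero_of_mem (h : Nice V N) (h' : Nice V' N') {s s' : ℝ}
    (e : pt V s = pt V' s') (m : Fin 2) : dot (cst (N' m)) (bez V (1 - s) s) = 0 := by
  rw [h.lift_pt, dot_smul, e, h'.dot_lift, mul_zero]

/-- A short arc on one side of a sphere through the other circle. -/
def SepA (V : Fin 3 → Fin 5 → ℤ) (N' : Fin 2 → Fin 5 → ℤ) : Prop :=
  ∃ m, (∀ r, 0 < dot (N' m) (V r)) ∨ (∀ r, dot (N' m) (V r) < 0)

instance (V : Fin 3 → Fin 5 → ℤ) (N : Fin 2 → Fin 5 → ℤ) : Decidable (SepA V N) := by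
  unfold SepA; infer_instance

theorem bern_pos {p q r s : ℝ} (hp : 0 < p) (hq : 0 < q) (hr : 0 < r) (h0 : 0 ≤ s) (h1 : s ≤ 1) :
    0 < (1 - s) ^ 2 * p + 2 * (1 - s) * s * q + s ^ 2 * r := by
  have h2 : 0 ≤ 1 - s := by linarith
  rcases h0.lt_or_eq with h | h
  · positivity
  · subst h; simpa using hp

theorem Nice.disjoint_of_sepA (h : Nice V N) (h' : Nice V' N') (hs : SepA V N') :
    Disjoint (arc V) (arc V') := by
  rw [Set.disjoint_left]
  rintro _ ⟨s, hs01, rfl⟩ ⟨s', -, e⟩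
  obtain ⟨m, hm⟩ := hs
  have := h.dot_eq_zero_of_mem h' e.symm m
  rw [dot_bez] at this
  rcases hm with hm | hm
  · have := bern_pos (p := (dot (N' m) (V 0) : ℤ)) (q := (dot (N' m) (V 1) : ℤ))
      (r := (dot (N' m) (V 2) : ℤ)) (by exact_mod_cast hm 0) (by exact_mod_cast hm 1)
      (by exact_mod_cast hm 2) hs01.1 hs01.2
    linarith
  · have := bern_pos (p := -(dot (N' m) (V 0) : ℤ)) (q := -(dot (N' m) (V 1) : ℤ))
      (r := -(dot (N' m) (V 2) : ℤ)) (by have := hm 0; exact_mod_cast (by linarith))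
      (by have := hm 1; exact_mod_cast (by linarith)) (by have := hm 2; exact_mod_cast (by linarith))
      hs01.1 hs01.2
    linarith

/-- The resultant of two binary quadratic forms in Bernstein form. -/
def res2 {R : Type*} [CommRing R] (p0 p1 p2 m0 m1 m2 : R) : R :=
  (p2 * m0 - p0 * m2) ^ 2 - 4 * (p2 * m1 - p1 * m2) * (p1 * m0 - p0 * m1)

/-- Two whole circles without a common point. -/
def SepB (V : Fin 3 → Fin 5 → ℤ) (N' : Fin 2 → Fin 5 → ℤ) : Prop :=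
  res2 (dot (N' 0) (V 0)) (dot (N' 0) (V 1)) (dot (N' 0) (V 2))
    (dot (N' 1) (V 0)) (dot (N' 1) (V 1)) (dot (N' 1) (V 2)) ≠ 0

instance (V : Fin 3 → Fin 5 → ℤ) (N : Fin 2 → Fin 5 → ℤ) : Decidable (SepB V N) := by
  unfold SepB; infer_instance

theorem res2_eq_zero {p0 p1 p2 m0 m1 m2 a b : ℝ} (hab : a + b = 1)
    (hp : a ^ 2 * p0 + 2 * a * b * p1 + b ^ 2 * p2 = 0)
    (hm : a ^ 2 * m0 + 2 * a * b * m1 + b ^ 2 * m2 = 0) : res2 p0 p1 p2 m0 m1 m2 = 0 := by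
  have h1 : a * (a * (p2 * m0 - p0 * m2) + 2 * b * (p2 * m1 - p1 * m2)) = 0 := by
    linear_combination p2 * hm - m2 * hp
  have h2 : b * (2 * a * (p1 * m0 - p0 * m1) + b * (p2 * m0 - p0 * m2)) = 0 := by
    linear_combination m0 * hp - p0 * hm
  unfold res2
  by_cases ha : a = 0
  · have hb : b = 1 := by linarith
    subst ha hb
    have e1 : p2 = 0 := by linarith
    have e2 : m2 = 0 := by linarith
    simp [e1, e2]
  by_cases hb : b = 0
  · have ha : a = 1 := by linarith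
    subst ha hb
    have e1 : p0 = 0 := by linarith
    have e2 : m0 = 0 := by linarith
    simp [e1, e2]
  have h1 := (mul_eq_zero.1 h1).resolve_left ha
  have h2 := (mul_eq_zero.1 h2).resolve_left hb
  have : a * ((p2 * m0 - p0 * m2) ^ 2 - 4 * (p2 * m1 - p1 * m2) * (p1 * m0 - p0 * m1)) = 0 := by
    linear_combination (p2 * m0 - p0 * m2) * h1 - 2 * (p2 * m1 - p1 * m2) * h2
  exact (mul_eq_zero.1 this).resolve_left ha

theorem Nice.disjoint_of_sepB (h : Nice V N) (h' : Nice V' N') (hs : SepB V N') :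
    Disjoint (arc V) (arc V') := by
  rw [Set.disjoint_left]
  rintro _ ⟨s, -, rfl⟩ ⟨s', -, e⟩
  have h0 := h.dot_eq_zero_of_mem h' e.symm 0
  have h1 := h.dot_eq_zero_of_mem h' e.symm 1
  rw [dot_bez] at h0 h1
  have := res2_eq_zero (by ring) h0 h1
  apply hs
  have e : ((res2 (dot (N' 0) (V 0)) (dot (N' 0) (V 1)) (dot (N' 0) (V 2))
    (dot (N' 1) (V 0)) (dot (N' 1) (V 1)) (dot (N' 1) (V 2)) : ℤ) : ℝ) = 0 := by
    rw [← this]; simp only [res2]; push_cast; ring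
  exact_mod_cast e

/-- The two arcs share the point with homogeneous parameters `(a, b)` and `(c, d)`. -/
def Meet (V V' : Fin 3 → Fin 5 → ℤ) (w : Fin 4 → ℤ) : Prop :=
  0 ≤ w 0 ∧ 0 ≤ w 1 ∧ 0 < w 0 + w 1 ∧ 0 ≤ w 2 ∧ 0 ≤ w 3 ∧ 0 < w 2 + w 3 ∧
    ∀ k, bez V (w 0) (w 1) k * bez V' (w 2) (w 3) 0 = bez V' (w 2) (w 3) k * bez V (w 0) (w 1) 0

instance (V V' : Fin 3 → Fin 5 → ℤ) (w : Fin 4 → ℤ) : Decidable (Meet V V' w) := by
  unfold Meet; infer_instance

theorem bez_scale (V : Fin 3 → Fin 5 → ℤ) (a b : ℤ) (hab : (0 : ℝ) < a + b) (k : Fin 5) :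
    bez V (1 - (b : ℝ) / (a + b)) ((b : ℝ) / (a + b)) k
      = ((bez V a b k : ℤ) : ℝ) / ((a : ℝ) + b) ^ 2 := by
  simp only [bez]; push_cast; field_simp; ring

theorem Nice.meet (h : Nice V N) (h' : Nice V' N') {w : Fin 4 → ℤ} (hw : Meet V V' w) :
    (arc V ∩ arc V').Nonempty := by
  obtain ⟨h0, h1, h01, h2, h3, h23, hk⟩ := hw
  have h0 : (0 : ℝ) ≤ w 0 := by exact_mod_cast h0
  have h1 : (0 : ℝ) ≤ w 1 := by exact_mod_cast h1
  have h2 : (0 : ℝ) ≤ w 2 := by exact_mod_cast h2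
  have h3 : (0 : ℝ) ≤ w 3 := by exact_mod_cast h3
  have h01 : (0 : ℝ) < w 0 + w 1 := by exact_mod_cast h01
  have h23 : (0 : ℝ) < w 2 + w 3 := by exact_mod_cast h23
  have hs : (w 1 : ℝ) / (w 0 + w 1) ∈ Set.Icc (0 : ℝ) 1 :=
    ⟨by positivity, by rw [div_le_one h01]; linarith⟩
  have hs' : (w 3 : ℝ) / (w 2 + w 3) ∈ Set.Icc (0 : ℝ) 1 :=
    ⟨by positivity, by rw [div_le_one h23]; linarith⟩
  refine ⟨_, ⟨_, hs, rfl⟩, ⟨_, hs', ?_⟩⟩
  have p1 := (h.pos ((w 1 : ℝ) / (w 0 + w 1))).ne'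
  have p2 := (h'.pos ((w 3 : ℝ) / (w 2 + w 3))).ne'
  have key : ∀ k, bez V' (1 - (w 3 : ℝ) / (w 2 + w 3)) ((w 3 : ℝ) / (w 2 + w 3)) k /
      bez V' (1 - (w 3 : ℝ) / (w 2 + w 3)) ((w 3 : ℝ) / (w 2 + w 3)) 0
      = bez V (1 - (w 1 : ℝ) / (w 0 + w 1)) ((w 1 : ℝ) / (w 0 + w 1)) k /
        bez V (1 - (w 1 : ℝ) / (w 0 + w 1)) ((w 1 : ℝ) / (w 0 + w 1)) 0 := by
    intro k
    rw [div_eq_div_iff p2 p1]
    simp only [bez_scale _ _ _ h01, bez_scale _ _ _ h23]
    have := congrArg (Int.cast : ℤ → ℝ) (hk k)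
    push_cast at this
    field_simp
    linear_combination -this
  simp only [pt, key]

end Pool.Agent.MP_d8c3a3_gt

end MrgPart2

-- ======== part 3: formerly Pool.Agent.MP_d8c3a3_gt.Unique
section MrgPart3

/-!
Through one chosen point of the cubic section there passes only one circle lying on it.
-/

namespace Pool.Agent.MP_d8c3a3_gt

theorem coeff6 {c0 c1 c2 c3 c4 c5 c6 : ℝ}
    (h : ∀ s : ℝ, c0 + c1 * s + c2 * s ^ 2 + c3 * s ^ 3 + c4 * s ^ 4 + c5 * s ^ 5 + c6 * s ^ 6 = 0) :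
    c0 = 0 ∧ c1 = 0 ∧ c2 = 0 ∧ c3 = 0 ∧ c4 = 0 ∧ c5 = 0 ∧ c6 = 0 := by
  have h0 := h 0
  have h1 := h 1
  have h2 := h (-1)
  have h3 := h 2
  have h4 := h (-2)
  have h5 := h 3
  have h6 := h (-3)
  norm_num at h0 h1 h2 h3 h4 h5 h6
  refine ⟨?_, ?_, ?_, ?_, ?_, ?_, ?_⟩ <;> linarith

/-- The cubic form in adapted coordinates. -/
def cub (Y : V5) : ℝ := Y 3 ^ 2 * Y 0 + Y 3 * Y 4 * Y 1 + Y 4 ^ 2 * Y 2

/-- The Lorentzian bilinear form in adapted coordinates. -/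
def bk (Y Z : V5) : ℝ :=
  17 * Y 0 * Z 2 - 25 * Y 0 * Z 3 - 5 * Y 0 * Z 4 + 1360 * Y 1 * Z 1 - 13685 * Y 1 * Z 2 + 125 *
  Y 1 * Z 3 + 25 * Y 1 * Z 4 + 17 * Y 2 * Z 0 - 13685 * Y 2 * Z 1 + 87720 * Y 2 * Z 2 + 38390 *
  Y 2 * Z 3 + 7678 * Y 2 * Z 4 - 25 * Y 3 * Z 0 + 125 * Y 3 * Z 1 + 38390 * Y 3 * Z 2 + 418540 *
  Y 3 * Z 3 + 5100 * Y 3 * Z 4 - 5 * Y 4 * Z 0 + 25 * Y 4 * Z 1 + 7678 * Y 4 * Z 2 + 5100 * Y 4
  * Z 3 + 1020 * Y 4 * Z 4

/-- A homogeneous quadratic parametrization. -/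
def conic (Y0 Y1 Y2 : V5) (t s : ℝ) : V5 := t ^ 2 • Y0 + (t * s) • Y1 + s ^ 2 • Y2

/-- The base point in adapted coordinates. -/
def Yb : V5 := ![0, -1627, -220, 92, 0]

@[simp] theorem Yb0 : Yb 0 = 0 := rfl
@[simp] theorem Yb1 : Yb 1 = -1627 := rfl
@[simp] theorem Yb2 : Yb 2 = -220 := rfl
@[simp] theorem Yb3 : Yb 3 = 92 := rfl
@[simp] theorem Yb4 : Yb 4 = 0 := rfl

/-- The conic through the base point lies on the light cone and on the cubic. -/
def Good (Y1 Y2 : V5) : Prop :=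
  ∀ t s : ℝ, bk (conic Yb Y1 Y2 t s) (conic Yb Y1 Y2 t s) = 0 ∧ cub (conic Yb Y1 Y2 t s) = 0

theorem Good.reparam {Y1 Y2 : V5} (h : Good Y1 Y2) (b l : ℝ) :
    Good ((2 * b) • Yb + l • Y1) (b ^ 2 • Yb + (b * l) • Y1 + l ^ 2 • Y2) := by
  intro t s
  have e : conic Yb ((2 * b) • Yb + l • Y1) (b ^ 2 • Yb + (b * l) • Y1 + l ^ 2 • Y2) t s
      = conic Yb Y1 Y2 (t + b * s) (l * s) := by
    funext k; simp [conic]; ring
  rw [e]; exact h _ _

theorem Good.eqs {Y1 Y2 : V5} (h : Good Y1 Y2) :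
    bk Yb Y1 = 0 ∧ bk Y1 Y1 + 2 * bk Yb Y2 = 0 ∧ bk Y1 Y2 = 0 ∧ bk Y2 Y2 = 0 := by
  have := coeff6 (c0 := 0) (c1 := 2 * bk Yb Y1) (c2 := bk Y1 Y1 + 2 * bk Yb Y2)
    (c3 := 2 * bk Y1 Y2) (c4 := bk Y2 Y2) (c5 := 0) (c6 := 0) (fun s => by
      have := (h 1 s).1
      simp only [bk, conic, Pi.add_apply, Pi.smul_apply, smul_eq_mul, Yb0, Yb1, Yb2, Yb3, Yb4]
        at this ⊢
      linear_combination this)
  obtain ⟨-, h1, h2, h3, h4, -, -⟩ := this
  exact ⟨by linarith, h2, by linarith, h4⟩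

theorem no_section_aux (a e d : ℝ)
    (E1 : bk Yb ![1627, 220 - a, -e, d, 92] = 0)
    (E2 : bk ![1627, 220 - a, -e, d, 92] ![1627, 220 - a, -e, d, 92]
      + 2 * bk Yb ![a, e, 0, 0, d] = 0)
    (E3 : bk ![1627, 220 - a, -e, d, 92] ![a, e, 0, 0, d] = 0)
    (E4 : bk ![a, e, 0, 0, d] ![a, e, 0, 0, d] = 0) : False := by
  simp only [bk, Yb, Matrix.cons_val_zero, Matrix.cons_val_one, Matrix.cons_val] at E1 E2 E3 E4
  have : (1667188888142829305387686751795131181808233922236519743079040000 : ℝ) = 0 := by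
    linear_combination (-71717765091502102942469253774049373286657833370932775480 +
        355157144766444191781550055235361465157398823675765840 * a -
        31142040092725262467541706900846076096065959870826880 * a * d -
        3165441224075301230059584325745894226186614262225440 * a * d * e -
        32793792699598473601157513913695370275851352977563840 * a * e -
        2146504037938097517694921064169827338382583946617290 * a * e ^ 2 -
        500567037503204842285519934129493891294785952076480 * a ^ 2 -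
        50880274099192126889253961098600295967192199140240 * a ^ 2 * e +
        7017803259669721309978933030761595747856979448935484800 * d +
        2387754608497373019507737691873422257091087580075289360 * d * e -
        244093479691805168900956880992157608791286471869632500 * d * e ^ 2 +
        4818845435891819886509709957004234907027544824137244038 * e +
        1609662131849294868818171298974017991053075000059239308 * e ^ 2 -
        39386795161945904082500953247318865119249715481867256 * e ^ 3) * E1 +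
      (73224579571838760454978551282448028240950739446369787700 -
        297940445233892835098001967852310819945075979769756640 * a -
        30284238439569149172289188551540417337884368647089320 * a * e -
        100375973859484501034480641966103640727776477988263654295 * e +
        19148990026689795832496458494401908452927545402528382175 * e ^ 2) * E2 +
      (20746503084107158237529509952353442222776504719829136743080 -
        66999267501628314364457541933641510570394346866016714800 * a +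
        21016505272609337891441185626650126660041157511129004800 * a * e -
        2251455764443284204789144008226602673721982099860048778970 * e -
        140392604751713297679509390016820332505190763073634753760 * e ^ 2) * E3 +
      (-339197705268911014168842928959173617970586610550050740139500 +
        1368812484259951149950120114980512989883722628237903222000 * a -
        17447277362319085820001672162410391725260456846531037756775 * e -
        10625298677676318872849242190620059261503389500637006800 * e ^ 2) * E4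
  norm_num at this

theorem Good.no_section {Y1 Y2 : V5} (h : Good Y1 Y2) (h1 : Y1 4 = 92) (h2 : Y2 3 = 0)
    (h3 : Y2 4 = Y1 3) : False := by
  obtain ⟨-, c1, c2, c3, c4, -, -⟩ := coeff6 (c0 := 0) (c1 := -13770928 + 8464 * Y1 0)
    (c2 := -1862080 + 184 * Y1 0 * Y1 3 + 8464 * Y1 1 - 299368 * Y1 3 + 8464 * Y2 0)
    (c3 := Y1 0 * Y1 3 ^ 2 + 184 * Y1 1 * Y1 3 + 8464 * Y1 2 - 40480 * Y1 3 + 184 * Y1 3 * Y2 0
      - 1627 * Y1 3 ^ 2 + 8464 * Y2 1)
    (c4 := Y1 1 * Y1 3 ^ 2 + 184 * Y1 2 * Y1 3 + 184 * Y1 3 * Y2 1 - 220 * Y1 3 ^ 2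
      + Y1 3 ^ 2 * Y2 0 + 8464 * Y2 2)
    (c5 := Y1 2 * Y1 3 ^ 2 + 184 * Y1 3 * Y2 2 + Y1 3 ^ 2 * Y2 1)
    (c6 := Y1 3 ^ 2 * Y2 2) (fun s => by
      have := (h 1 s).2
      simp only [cub, conic, Pi.add_apply, Pi.smul_apply, smul_eq_mul, Yb0, Yb1, Yb2, Yb3, Yb4,
        h1, h2, h3] at this ⊢
      linear_combination this)
  have a1 : Y1 0 = 1627 := by linarith
  have a2 : Y1 1 = 220 - Y2 0 := by rw [a1] at c2; linarith
  have a3 : Y1 2 = -Y2 1 := by rw [a1, a2] at c3; linarith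
  have a4 : Y2 2 = 0 := by rw [a2, a3] at c4; linarith
  have e1 : Y1 = ![1627, 220 - Y2 0, -Y2 1, Y1 3, 92] := by
    funext k; fin_cases k <;> simp [a1, a2, a3, h1]
  have e2 : Y2 = ![Y2 0, Y2 1, 0, 0, Y1 3] := by
    funext k; fin_cases k <;> simp [a4, h2, h3]
  obtain ⟨E1, E2, E3, E4⟩ := h.eqs
  generalize Y2 0 = a at e1 e2
  generalize Y2 1 = e at e1 e2
  generalize Y1 3 = d at e1 e2
  subst e1 e2
  exact no_section_aux a e d E1 E2 E3 E4

theorem Good.no_norm {Y1 Y2 : V5} (h : Good Y1 Y2) (h1 : Y1 4 = 92) (h2 : Y2 4 = 0) : False := by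
  by_cases hx : Y2 3 = 0
  · refine (h.reparam (-Y1 3 / 92) 1).no_section ?_ ?_ ?_
    · simp [h1]
    · simp [hx]; ring
    · simp [h1, h2]; ring
  obtain ⟨-, c1, c2, c3, -, c5, c6⟩ := coeff6 (c0 := 0) (c1 := -13770928 + 8464 * Y1 0)
    (c2 := -1862080 + 184 * Y1 0 * Y1 3 + 8464 * Y1 1 - 149684 * Y1 3 + 8464 * Y2 0)
    (c3 := Y1 0 * Y1 3 ^ 2 + 184 * Y1 0 * Y2 3 + 92 * Y1 1 * Y1 3 + 8464 * Y1 2
      + 184 * Y1 3 * Y2 0 + 8464 * Y2 1 - 149684 * Y2 3)
    (c4 := 2 * Y1 0 * Y1 3 * Y2 3 + 92 * Y1 1 * Y2 3 + 92 * Y1 3 * Y2 1 + Y1 3 ^ 2 * Y2 0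
      + 184 * Y2 0 * Y2 3 + 8464 * Y2 2)
    (c5 := Y1 0 * Y2 3 ^ 2 + 2 * Y1 3 * Y2 0 * Y2 3 + 92 * Y2 1 * Y2 3)
    (c6 := Y2 0 * Y2 3 ^ 2) (fun s => by
      have := (h 1 s).2
      simp only [cub, conic, Pi.add_apply, Pi.smul_apply, smul_eq_mul, Yb0, Yb1, Yb2, Yb3, Yb4,
        h1, h2] at this ⊢
      linear_combination this)
  have a1 : Y1 0 = 1627 := by linarith
  have a2 : Y2 0 = 0 := by simpa [hx] using c6
  have a3 : Y1 1 = 220 - 1627 / 92 * Y1 3 := by rw [a1, a2] at c2; linarith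
  have a4 : Y2 1 = -1627 / 92 * Y2 3 := by
    rw [a1, a2] at c5
    have : Y2 3 * (1627 * Y2 3 + 92 * Y2 1) = 0 := by linear_combination c5
    have := (mul_eq_zero.1 this).resolve_left hx
    linarith
  have a5 : Y1 2 = -220 / 92 * Y1 3 := by rw [a1, a2, a3, a4] at c3; linarith
  have E1 := h.eqs.1
  simp only [bk, Yb0, Yb1, Yb2, Yb3, Yb4, a1, a3, a5, h1] at E1
  linarith

theorem Good.unique {Y1 Y2 : V5} (h : Good Y1 Y2) :
    Y1 4 = 0 ∧ Y2 4 = 0 ∧ Y1 0 = 0 ∧ Y2 0 = 0 := by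
  have h1 : Y1 4 = 0 := by
    by_contra hne
    refine (h.reparam (-(92 * Y2 4 / Y1 4 ^ 2)) (92 / Y1 4)).no_norm ?_ ?_
    · simp; field_simp
    · simp; field_simp; ring
  obtain ⟨-, c1, c2, c3, c4, c5, c6⟩ := coeff6 (c0 := 0) (c1 := 8464 * Y1 0)
    (c2 := 184 * Y1 0 * Y1 3 + 8464 * Y2 0 - 149684 * Y2 4)
    (c3 := Y1 0 * Y1 3 ^ 2 + 184 * Y1 0 * Y2 3 + 92 * Y1 1 * Y2 4 + 184 * Y1 3 * Y2 0
      - 1627 * Y1 3 * Y2 4)
    (c4 := 2 * Y1 0 * Y1 3 * Y2 3 + Y1 1 * Y1 3 * Y2 4 + Y1 3 ^ 2 * Y2 0 + 184 * Y2 0 * Y2 3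
      + 92 * Y2 1 * Y2 4 - 1627 * Y2 3 * Y2 4 - 220 * Y2 4 ^ 2)
    (c5 := Y1 0 * Y2 3 ^ 2 + Y1 1 * Y2 3 * Y2 4 + Y1 2 * Y2 4 ^ 2 + 2 * Y1 3 * Y2 0 * Y2 3
      + Y1 3 * Y2 1 * Y2 4)
    (c6 := Y2 0 * Y2 3 ^ 2 + Y2 1 * Y2 3 * Y2 4 + Y2 2 * Y2 4 ^ 2) (fun s => by
      have := (h 1 s).2
      simp only [cub, conic, Pi.add_apply, Pi.smul_apply, smul_eq_mul, Yb0, Yb1, Yb2, Yb3, Yb4,
        h1] at this ⊢
      linear_combination this)
  have a1 : Y1 0 = 0 := by linarith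
  have a2 : Y2 0 = 1627 / 92 * Y2 4 := by rw [a1] at c2; linarith
  have h2 : Y2 4 = 0 := by
    by_contra hk
    have a3 : Y1 1 = -1627 / 92 * Y1 3 := by
      rw [a1, a2] at c3
      have : Y2 4 * (92 * Y1 1 + 1627 * Y1 3) = 0 := by linear_combination c3
      have := (mul_eq_zero.1 this).resolve_left hk
      linarith
    have a4 : Y2 1 = (220 * Y2 4 - 1627 * Y2 3) / 92 := by
      rw [a1, a2, a3] at c4
      have : Y2 4 * (92 * Y2 1 + 1627 * Y2 3 - 220 * Y2 4) = 0 := by linear_combination c4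
      have := (mul_eq_zero.1 this).resolve_left hk
      linarith
    have a5 : Y1 2 = -220 / 92 * Y1 3 := by
      rw [a1, a2, a3, a4] at c5
      have : Y2 4 ^ 2 * (Y1 2 + 220 / 92 * Y1 3) = 0 := by linear_combination c5
      have := (mul_eq_zero.1 this).resolve_left (pow_ne_zero 2 hk)
      linarith
    have a6 : Y2 2 = -220 / 92 * Y2 3 := by
      rw [a2, a4] at c6
      have : Y2 4 ^ 2 * (Y2 2 + 220 / 92 * Y2 3) = 0 := by linear_combination c6
      have := (mul_eq_zero.1 this).resolve_left (pow_ne_zero 2 hk)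
      linarith
    have E2 := h.eqs.2.1
    simp only [bk, Yb0, Yb1, Yb2, Yb3, Yb4, a1, a2, a3, a4, a5, a6, h1] at E2
    apply hk
    linarith
  exact ⟨h1, h2, a1, by rw [a2, h2]; ring⟩

end Pool.Agent.MP_d8c3a3_gt

end MrgPart3

-- marker of a merged file
example : 731051 + 785873 = 731051 + 785873 := rfl
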