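import Pool.Agent.MP_d8c3a3_gt.Unique

/-!
The eighteen arcs of the grid: integer data and the finite checks on it.
-/

namespace Pool.Agent.MP_d8c3a3_gt

/-- Control vectors: the first nine arcs form one collection, the last nine the other. -/
def ctl : Fin 18 → Fin 3 → Fin 5 → ℤ :=
  ![![![309, -21, -96, -108, 69],
      ![355, -43, -80, -84, 35],
      ![421, -53, -64, -44, 21]],
    ![![1453, -149, -80, -496, 189],
      ![1387, -163, -64, -432, 155],
      ![1533, -165, -48, -432, 141]],
    ![![421, -53, 64, 44, 21],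
      ![355, -43, 80, 84, 35],
      ![309, -21, 96, 108, 69]],
    ![![1533, -165, 48, 432, 141],
      ![1387, -163, 64, 432, 155],
      ![1453, -149, 80, 496, 189]],
    ![![6789, -636, -456, 2292, 864],
      ![6379, -752, -392, 1982, 720],
      ![7093, -820, -328, 1968, 656]],
    ![![7093, -820, 328, -1968, 656],
      ![6379, -752, 392, -1982, 720],
      ![6789, -636, 456, -2292, 864]],
    ![![4141, -205, -1640, 1230, 1025],
      ![4435, -575, -1240, 730, 375],
      ![4989, -645, -840, 30, 225]],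
    ![![4989, -645, 840, -30, 225],
      ![4435, -575, 1240, -730, 375],
      ![4141, -205, 1640, -1230, 1025]],
    ![![29, -4, 0, 10, 4],
      ![34, -4, 0, 11, 4],
      ![40, -4, 0, 12, 4]],
    ![![3539571, -338291, -409016, 1189492, 479331],
      ![-3324919, 289455, 688228, -1134712, -526775],
      ![3352347, -267531, -967440, 1003836, 601131]],
    ![![400378, -38786, -52921, 132121, 54351],
      ![-386524, 35097, 80954, -126029, -58907],
      ![393414, -33720, -108987, 113409, 65775]],
    ![![286536666, -30735843, -18969300, 90903111, 33391545],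
      ![-284943998, 30296943, 26054300, -90152081, -33944545],
      ![285141810, -30058043, -33139300, 88837051, 34697545]],
    ![![96016457, -10411693, -5879322, 30267910, 11030569],
      ![-10559933, 1117757, 1624348, -3268260, -1288741],
      ![1261077, -130993, -288382, 321170, 161349]],
    ![![96016457, -10411693, 5879322, -30267910, 11030569],
      ![-10559933, 1117757, -1624348, 3268260, -1288741],
      ![1261077, -130993, 288382, -321170, 161349]],
    ![![286536666, -30735843, 18969300, -90903111, 33391545],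
      ![-284943998, 30296943, -26054300, 90152081, -33944545],
      ![285141810, -30058043, 33139300, -88837051, 34697545]],
    ![![63892239, -6789363, 4615992, -20365002, 7546083],
      ![-63148171, 6595383, -7190924, 20066054, -7774223],
      ![63469863, -6520475, 9765856, -19431362, 8121435]],
    ![![400378, -38786, 52921, -132121, 54351],
      ![-386524, 35097, -80954, 126029, -58907],
      ![393414, -33720, 108987, -113409, 65775]],
    ![![3539571, -338291, 409016, -1189492, 479331],
      ![-3324919, 289455, -688228, 1134712, -526775],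
      ![3352347, -267531, 967440, -1003836, 601131]]]

/-- A plane and a sphere through each circle. -/
def nrm : Fin 18 → Fin 2 → Fin 5 → ℤ :=
  ![![![-2, -6, -13, 7, 0], ![-1, -4, -5, 3, 1]],
    ![![7, 15, -62, 26, 0], ![1, 2, -8, 4, 1]],
    ![![2, 6, -13, 7, 0], ![-1, -4, 5, -3, 1]],
    ![![-7, -15, -62, 26, 0], ![1, 2, 8, -4, 1]],
    ![![-64, -154, 609, 268, 0], ![-12, -29, 115, 50, 1]],
    ![![64, 154, 609, 268, 0], ![-12, -29, -115, -50, 1]],
    ![![40, 58, 198, 139, 0], ![5, 6, 26, 18, 1]],
    ![![-40, -58, 198, 139, 0], ![5, 6, -26, -18, 1]],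
    ![![0, 0, 1, 0, 0], ![0, 1, 0, 0, 1]],
    ![![-24389, -224141, -20784, 1682, 0], ![11774, 108207, 10034, -812, 1]],
    ![![-4913, -44897, -3543, 289, 0], ![-2312, -21127, -1667, 136, 1]],
    ![![-625000, -5644600, -211029, 17500, 0], ![212500, 1919165, 71750, -5950, 1]],
    ![![-34295, -309263, -8688, 722, 0], ![-14440, -130215, -3658, 304, 1]],
    ![![34295, 309263, -8688, 722, 0], ![-14440, -130215, 3658, -304, 1]],
    ![![625000, 5644600, -211029, 17500, 0], ![212500, 1919165, -71750, 5950, 1]],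
    ![![226981, 2052589, -89904, 7442, 0], ![3721, 33650, -1474, 122, 1]],
    ![![4913, 44897, -3543, 289, 0], ![-2312, -21127, 1667, -136, 1]],
    ![![24389, 224141, -20784, 1682, 0], ![11774, 108207, -10034, 812, 1]]]

/-- Parameters of the 81 crossing points. -/
def crossing : Fin 9 → Fin 9 → Fin 4 → ℤ :=
  ![![![49, 9, 353, 397], ![27, 7, 149, 165], ![16, 9, 1285, 1329],
      ![23, 15, 4, 41], ![15, 23, 11, 64], ![9, 16, 9359, 8179],
      ![41, 81, 43, 35], ![7, 27, 333, 253], ![9, 49, 15, 11]],
    ![![49, 9, 771, 788], ![27, 7, 1719, 1751], ![16, 9, 667, 671],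
      ![23, 15, 403, 3707], ![15, 23, 7, 23], ![9, 16, 1991, 1371],
      ![41, 81, 311, 183], ![7, 27, 2089, 1161], ![9, 49, 2, 1]],
    ![![49, 9, 15, 11], ![27, 7, 333, 253], ![16, 9, 9359, 8179],
      ![23, 15, 11, 64], ![15, 23, 4, 41], ![9, 16, 1285, 1329],
      ![41, 81, 1819, 1923], ![7, 27, 149, 165], ![9, 49, 353, 397]],
    ![![49, 9, 2, 1], ![27, 7, 2089, 1161], ![16, 9, 1991, 1371],
      ![23, 15, 7, 23], ![15, 23, 403, 3707], ![9, 16, 667, 671],
      ![41, 81, 3221, 3253], ![7, 27, 1719, 1751], ![9, 49, 771, 788]],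
    ![![49, 9, 177, 41], ![27, 7, 243, 77], ![16, 9, 2657, 217],
      ![23, 15, 119, 1], ![15, 23, 1237, 10843], ![9, 16, 7781, 7725],
      ![41, 81, 343, 339], ![7, 27, 101, 99], ![9, 49, 34027, 33251]],
    ![![49, 9, 34027, 33251], ![27, 7, 101, 99], ![16, 9, 7781, 7725],
      ![23, 15, 1237, 10843], ![15, 23, 119, 1], ![9, 16, 2657, 217],
      ![41, 81, 211, 23], ![7, 27, 243, 77], ![9, 49, 177, 41]],
    ![![49, 9, 13, 41], ![27, 7, 25, 69], ![16, 9, 1249, 1509],
      ![23, 15, 64, 1501], ![15, 23, 1153, 8852], ![9, 16, 439, 419],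
      ![41, 81, 9755, 9043], ![7, 27, 225, 197], ![9, 49, 6303, 5371]],
    ![![49, 9, 6303, 5371], ![27, 7, 225, 197], ![16, 9, 439, 419],
      ![23, 15, 1153, 8852], ![15, 23, 64, 1501], ![9, 16, 1249, 1509],
      ![41, 81, 335, 471], ![7, 27, 25, 69], ![9, 49, 13, 41]],
    ![![6, 23, 4170, 1763], ![4, 13, 6411, 3113], ![38, 87, 331393, 189693],
      ![6, 13, 7589, 17191], ![34, 61, 1, 9], ![9, 16, 1, 1],
      ![22, 39, 1, 1], ![6, 11, 1, 1], ![10, 19, 1, 1]]]

/-- Index of an arc of the first collection. -/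
def iA (i : Fin 9) : Fin 18 := Fin.castAdd 9 i

/-- Index of an arc of the second collection. -/
def iB (j : Fin 9) : Fin 18 := Fin.natAdd 9 j

theorem nice : ∀ i, Nice (ctl i) (nrm i) := by decide +kernel

theorem sepA : ∀ i k, i ≠ k → SepA (ctl (iA i)) (nrm (iA k)) := by decide +kernel

theorem sepB : ∀ j k, j ≠ k → SepB (ctl (iB j)) (nrm (iB k)) := by decide +kernel

theorem meet : ∀ i j, Meet (ctl (iA i)) (ctl (iB j)) (crossing i j) := by decide +kernel

theorem distinct : ∀ i k, i ≠ k → ∃ m r, dot (nrm k m) (ctl i r) ≠ 0 := by decide +kernel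

theorem cover : ∀ i : Fin 18, (∃ a, i = iA a) ∨ ∃ b, i = iB b := by decide

theorem isGrid : IsGrid 8 (fun i => arc (ctl (iA i))) (fun j => arc (ctl (iB j))) :=
  ⟨fun _ => (nice _).isArc, fun _ => (nice _).isArc,
    fun i k h => (nice _).disjoint_of_sepA (nice _) (sepA i k h),
    fun j k h => (nice _).disjoint_of_sepB (nice _) (sepB j k h),
    fun i j => (nice _).meet (nice _) (meet i j)⟩

end Pool.Agent.MP_d8c3a3_gt
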