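import Mathlib.Topology.Sheaves.Presheaf
import Mathlib.Tactic.Monotonicity.Lemmas
import Mathlib.RingTheory.Polynomial.GaussLemma
import Mathlib.Algebra.Order.Star.Real
import Mathlib.Algebra.Polynomial.Bivariate
import Mathlib.RingTheory.Polynomial.Resultant.Basic
import Mathlib.Topology.Algebra.Module.Cardinality
import Mathlib.Analysis.CStarAlgebra.Classes
import Mathlib.RingTheory.SimpleRing.Principal
import Mathlib.RingTheory.Henselian
import Mathlib.RingTheory.RegularLocalRing.Defs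
import Pool.Agent.MP_d8c3a3_gt.Data
import Pool.Agent.MP_d8c3a3_gt.Unique

-- ======== part 0: formerly Pool.Agent.MP_d8c3a3_gt.Cover
section MrgPart0

/-!
Two facts on plane curves over a field: an irreducible curve that shares infinitely many points
with another curve is a component of it, and a curve of bounded bidegree has boundedly many
components.
-/

open Polynomial

namespace Pool.Agent.MP_d8c3a3_gt

section
variable {F : Type*} [Field F]

theorem dvd_of_infinite_common_zeros {p h : F[X][X]} (hp : Irreducible p)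
    (hinf : Set.Infinite {v : F × F | p.evalEval v.1 v.2 = 0 ∧ h.evalEval v.1 v.2 = 0}) :
    p ∣ h := by
  classical
  -- if some vertical line carries infinitely many common zeros, both vanish on it
  have line : ∀ (f : F[X][X]) (z : F), {w : F | f.evalEval z w = 0}.Infinite →
      C (X - C z) ∣ f := by
    intro f z hz
    have h0 : f.map (evalRingHom z) = 0 := by
      apply Polynomial.eq_zero_of_infinite_isRoot
      refine hz.mono ?_
      intro w hw
      simpa [Polynomial.IsRoot, map_evalRingHom_eval] using hw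
    rw [C_dvd_iff_dvd_coeff]
    intro i
    rw [dvd_iff_isRoot]
    have := congrArg (fun q => q.coeff i) h0
    simpa [coeff_map] using this
  have hline : ∀ z : F, ¬ IsUnit (C (X - C z) : F[X][X]) := by
    intro z hu
    rw [isUnit_C] at hu
    exact (Polynomial.not_isUnit_X_sub_C z) hu
  by_cases hfin : ∀ z : F, {w : F | p.evalEval z w = 0 ∧ h.evalEval z w = 0}.Finite
  · -- every vertical line has finitely many common zeros
    by_contra hnd
    -- a nonzero polynomial in the first variable vanishing on the common zeros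
    have key : ∃ r : F[X], r ≠ 0 ∧ ∃ a b : F[X][X], a * p + b * h = C r := by
      by_cases hd : p.natDegree = 0
      · refine ⟨p.coeff 0, ?_, 1, 0, ?_⟩
        · intro h0
          apply hp.ne_zero
          rw [eq_C_of_natDegree_eq_zero hd, h0, map_zero]
        · rw [one_mul, zero_mul, add_zero]; exact eq_C_of_natDegree_eq_zero hd
      · have hprim : p.IsPrimitive := hp.isPrimitive hd
        let K := FractionRing F[X]
        have hirr : Irreducible (p.map (algebraMap F[X] K)) :=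
          (hprim.irreducible_iff_irreducible_map_fraction_map (K := K)).1 hp
        have hnd' : ¬ p.map (algebraMap F[X] K) ∣ h.map (algebraMap F[X] K) := fun hh =>
          hnd (hprim.dvd_of_fraction_map_dvd_fraction_map hh)
        have hcop : IsCoprime (p.map (algebraMap F[X] K)) (h.map (algebraMap F[X] K)) :=
          (hirr.coprime_iff_not_dvd).2 hnd'
        have hres := resultant_ne_zero _ _ hcop
        have hinj : Function.Injective (algebraMap F[X] K) := IsFractionRing.injective _ _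
        rw [natDegree_map_eq_of_injective hinj, natDegree_map_eq_of_injective hinj,
          resultant_map_map] at hres
        obtain ⟨a, b, -, -, e⟩ :=
          exists_mul_add_mul_eq_C_resultant p h le_rfl le_rfl (Or.inl hd)
        refine ⟨p.resultant h p.natDegree h.natDegree, fun h0 => hres (by rw [h0, map_zero]),
          a, b, ?_⟩
        rw [← e]; ring
    obtain ⟨r, hr, a, b, e⟩ := key
    apply hinf
    have hroots : {z : F | r.IsRoot z}.Finite := finite_setOfPred_isRoot hr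
    refine (hroots.biUnion (t := fun z => (fun w => (z, w)) ''
      {w : F | p.evalEval z w = 0 ∧ h.evalEval z w = 0})
      (fun z _ => (hfin z).image _)).subset ?_
    rintro ⟨z, w⟩ ⟨h1, h2⟩
    simp only [Set.mem_iUnion]
    refine ⟨z, ?_, w, ⟨h1, h2⟩, rfl⟩
    have := congrArg (evalEval z w) e
    simp only [evalEval_add, evalEval_mul, evalEval_C] at this
    simp only at h1 h2
    rw [h1, h2] at this
    simpa [Polynomial.IsRoot] using this.symm
  · push Not at hfin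
    obtain ⟨z, hz⟩ := hfin
    have h1 := line p z (hz.mono fun w hw => hw.1)
    have h2 := line h z (hz.mono fun w hw => hw.2)
    obtain ⟨c, hc⟩ := h1
    rcases hp.isUnit_or_isUnit hc with hu | hu
    · exact absurd hu (hline z)
    · rw [hc]
      exact (hu.mul_right_dvd).2 h2

/-- A size that adds under products and is positive on irreducibles. -/
noncomputable def size (g : F[X][X]) : ℕ := g.natDegree + g.leadingCoeff.natDegree

theorem size_mul {a b : F[X][X]} (ha : a ≠ 0) (hb : b ≠ 0) :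
    size (a * b) = size a + size b := by
  unfold size
  rw [natDegree_mul ha hb, leadingCoeff_mul,
    natDegree_mul (leadingCoeff_ne_zero.2 ha) (leadingCoeff_ne_zero.2 hb)]
  ring

theorem size_pos {p : F[X][X]} (hp : Irreducible p) : 0 < size p := by
  by_contra h0
  have h0 : size p = 0 := by omega
  unfold size at h0
  have h1 : p.natDegree = 0 := by omega
  have h2 : p.leadingCoeff.natDegree = 0 := by omega
  apply hp.not_isUnit
  have hne : p.leadingCoeff ≠ 0 := leadingCoeff_ne_zero.2 hp.ne_zero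
  have hu : IsUnit p.leadingCoeff := by
    rw [eq_C_of_natDegree_eq_zero h2] at hne ⊢
    rw [isUnit_C]
    exact IsUnit.mk0 _ (fun h => hne (by rw [h, map_zero]))
  rw [eq_C_of_natDegree_eq_zero h1, isUnit_C]
  rwa [leadingCoeff, h1] at hu

theorem exists_cover (g : F[X][X]) (hg : g ≠ 0) :
    ∃ P : Finset F[X][X], P.card ≤ size g ∧ (∀ p ∈ P, Irreducible p) ∧
      ∀ z w : F, g.evalEval z w = 0 → ∃ p ∈ P, p.evalEval z w = 0 := by
  classical
  induction g using WfDvdMonoid.induction_on_irreducible with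
  | zero => exact absurd rfl hg
  | unit u hu =>
    refine ⟨∅, by simp, by simp, ?_⟩
    intro z w h0
    exfalso
    have := hu.map (evalEvalRingHom z w)
    rw [coe_evalEvalRingHom, h0] at this
    exact not_isUnit_zero this
  | mul a i ha hi ih =>
    obtain ⟨P, hc, hirr, hcov⟩ := ih ha
    refine ⟨insert i P, ?_, ?_, ?_⟩
    · rw [size_mul hi.ne_zero ha]
      have := size_pos hi
      have := Finset.card_insert_le i P
      omega
    · intro p hp
      rcases Finset.mem_insert.1 hp with rfl | hp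
      · exact hi
      · exact hirr p hp
    · intro z w h0
      rw [evalEval_mul] at h0
      rcases mul_eq_zero.1 h0 with h0 | h0
      · exact ⟨i, Finset.mem_insert_self _ _, h0⟩
      · obtain ⟨p, hp, h1⟩ := hcov z w h0
        exact ⟨p, Finset.mem_insert_of_mem hp, h1⟩

/-- Bidegree at most `(n, n)`. -/
def Bd (n : ℕ) (g : F[X][X]) : Prop := g.natDegree ≤ n ∧ ∀ k, (g.coeff k).natDegree ≤ n

theorem Bd.size_le {n : ℕ} {g : F[X][X]} (h : Bd n g) : size g ≤ 2 * n := by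
  unfold size
  have := h.1
  have := h.2 g.natDegree
  rw [leadingCoeff]
  omega

theorem Bd.add {n : ℕ} {a b : F[X][X]} (ha : Bd n a) (hb : Bd n b) : Bd n (a + b) :=
  ⟨natDegree_add_le_of_degree_le ha.1 hb.1, fun k => by
    rw [coeff_add]; exact natDegree_add_le_of_degree_le (ha.2 k) (hb.2 k)⟩

theorem Bd.neg {n : ℕ} {a : F[X][X]} (ha : Bd n a) : Bd n (-a) :=
  ⟨by rw [natDegree_neg]; exact ha.1, fun k => by rw [coeff_neg, natDegree_neg]; exact ha.2 k⟩

theorem Bd.sub {n : ℕ} {a b : F[X][X]} (ha : Bd n a) (hb : Bd n b) : Bd n (a - b) := by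
  rw [sub_eq_add_neg]; exact ha.add hb.neg

theorem Bd.mul {m n : ℕ} {a b : F[X][X]} (ha : Bd m a) (hb : Bd n b) : Bd (m + n) (a * b) := by
  refine ⟨natDegree_mul_le.trans (add_le_add ha.1 hb.1), fun k => ?_⟩
  rw [coeff_mul]
  refine natDegree_sum_le_of_forall_le _ _ fun x _ => ?_
  exact natDegree_mul_le.trans (add_le_add (ha.2 _) (hb.2 _))

theorem Bd.mono {m n : ℕ} {a : F[X][X]} (ha : Bd m a) (h : m ≤ n) : Bd n a :=
  ⟨ha.1.trans h, fun k => (ha.2 k).trans h⟩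

theorem Bd.const (c : F) : Bd 0 (C (C c) : F[X][X]) :=
  ⟨by simp, fun k => by rw [coeff_C]; split_ifs <;> simp⟩

theorem Bd.natCast (c : ℕ) : Bd 0 (c : F[X][X]) := by
  have := Bd.const (F := F) c
  simpa using this

theorem Bd.cmul {n : ℕ} {a : F[X][X]} (c : F) (ha : Bd n a) : Bd n (C (C c) * a) := by
  simpa using (Bd.const c).mul ha

theorem Bd.nmul {n : ℕ} {a : F[X][X]} (c : ℕ) (ha : Bd n a) : Bd n ((c : F[X][X]) * a) := by
  simpa using (Bd.natCast c).mul ha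

theorem Bd.prod {n : ℕ} {f g : F[X]} (hf : f.natDegree ≤ n) (hg : g.natDegree ≤ n) :
    Bd n (C f * g.map C) := by
  refine ⟨(natDegree_C_mul_le _ _).trans (natDegree_map_le.trans hg), fun k => ?_⟩
  rw [coeff_C_mul, coeff_map]
  exact (natDegree_mul_C_le _ _).trans hf

end

end Pool.Agent.MP_d8c3a3_gt

end MrgPart0

-- ======== part 1: formerly Pool.Agent.MP_d8c3a3_gt.Count
section MrgPart1

/-!
A torus map whose image cone contains infinitely many points of each of the eighteen circles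
lies on the cubic: otherwise a curve of bidegree (6, 6) would have eighteen components.
-/

open Polynomial

namespace Pool.Agent.MP_d8c3a3_gt

/-- The polynomials `z`, `z Re z`, `z Im z` on the unit circle. -/
noncomputable def fz : Fin 3 → ℂ[X] :=
  ![X, C (1 / 2) * (X ^ 2 + 1), C (-Complex.I / 2) * (X ^ 2 - 1)]

theorem fz_natDegree (i : Fin 3) : (fz i).natDegree ≤ 2 := by
  fin_cases i <;> simp only [fz, Fin.zero_eta, Fin.mk_one, Fin.reduceFinMk,
    Matrix.cons_val_zero, Matrix.cons_val_one, Matrix.cons_val] <;> compute_degree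
  norm_num

/-- The complex number with real part `a` and imaginary part `b`. -/
def cx (a b : ℝ) : ℂ := ⟨a, b⟩

theorem cx_eq (a b : ℝ) : cx a b = a + b * Complex.I := by
  apply Complex.ext <;> simp [cx]

theorem eval_fz {a b : ℝ} (h : a ^ 2 + b ^ 2 = 1) :
    (fz 0).eval (cx a b) = cx a b ∧ (fz 1).eval (cx a b) = cx a b * a ∧
      (fz 2).eval (cx a b) = cx a b * b := by
  have h' : (a : ℂ) ^ 2 + (b : ℂ) ^ 2 = 1 := by exact_mod_cast h
  have hI := Complex.I_sq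
  refine ⟨by simp [fz], ?_, ?_⟩
  · simp [fz, cx_eq]
    linear_combination (-1 / 2) * h' + (b : ℂ) ^ 2 / 2 * hI
  · simp [fz, cx_eq]
    linear_combination (-Complex.I / 2) * h' + (-(a : ℂ) * b - Complex.I * b ^ 2 / 2) * hI

theorem cx_ne_zero {a b : ℝ} (h : a ^ 2 + b ^ 2 = 1) : cx a b ≠ 0 := by
  intro h0
  have h1 := congrArg Complex.re h0
  have h2 := congrArg Complex.im h0
  simp [cx] at h1 h2
  rw [h1, h2] at h
  norm_num at h

/-- The coordinates of a torus map as polynomials in two complex variables. -/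
noncomputable def polyT (M : Fin 3 → Fin 3 → V5) (k : Fin 5) : ℂ[X][X] :=
  ∑ i, ∑ j, C (C (M i j k : ℂ)) * (C (fz i) * (fz j).map C)

theorem Bd.zero (n : ℕ) : Bd n (0 : ℂ[X][X]) := ⟨by simp, by simp⟩

theorem bd_polyT (M : Fin 3 → Fin 3 → V5) (k : Fin 5) : Bd 2 (polyT M k) := by
  have h : ∀ i j, Bd 2 (C (C (M i j k : ℂ)) * (C (fz i) * (fz j).map C)) := fun i j =>
    (Bd.prod (fz_natDegree i) (fz_natDegree j)).cmul _
  simp only [polyT, Fin.sum_univ_three]
  exact (((h _ _).add (h _ _)).add (h _ _)).add (((h _ _).add (h _ _)).add (h _ _)) |>.add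
    (((h _ _).add (h _ _)).add (h _ _))

theorem Bd.sq {n : ℕ} {a : ℂ[X][X]} (ha : Bd n a) : Bd (n + n) (a ^ 2) := by
  rw [pow_two]; exact ha.mul ha

theorem bd_Gf (Y : Fin 5 → ℂ[X][X]) (h : ∀ k, Bd 2 (Y k)) : Bd 6 (Gf Y) := by
  have h5 : ∀ k, Bd 2 (5 * Y k) := fun k => by simpa using (h k).nmul 5
  have h3 : ∀ k, Bd 2 (3 * Y k) := fun k => by simpa using (h k).nmul 3
  have h33 : ∀ k, Bd 2 (33 * Y k) := fun k => by simpa using (h k).nmul 33
  have h12 : ∀ k, Bd 2 (12 * Y k) := fun k => by simpa using (h k).nmul 12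
  exact ((((h 1).add (h 4)).sq.mul ((h5 1).sub (h3 4))).add
    ((((h 1).add (h 4)).mul (h 2)).mul (h 3))).add
    ((h 2).sq.mul (((h5 0).add (h33 1)).sub (h12 4)))

theorem evalEval_polyT (M : Fin 3 → Fin 3 → V5) {a b a' b' : ℝ} (h : a ^ 2 + b ^ 2 = 1)
    (h' : a' ^ 2 + b' ^ 2 = 1) (k : Fin 5) :
    (polyT M k).evalEval (cx a b) (cx a' b') = cx a b * cx a' b' * (tor M a b a' b' k : ℝ) := by
  obtain ⟨e0, e1, e2⟩ := eval_fz h
  obtain ⟨f0, f1, f2⟩ := eval_fz h'
  simp only [polyT, Fin.sum_univ_three, evalEval_add, evalEval_mul, evalEval_C, evalEval_map_C,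
    eval_C, e0, e1, e2, f0, f1, f2, tor, Pi.add_apply, Pi.smul_apply, smul_eq_mul]
  push_cast
  ring

theorem evalEval_Gf (M : Fin 3 → Fin 3 → V5) {a b a' b' : ℝ} (h : a ^ 2 + b ^ 2 = 1)
    (h' : a' ^ 2 + b' ^ 2 = 1) :
    (Gf (polyT M)).evalEval (cx a b) (cx a' b')
      = (cx a b * cx a' b') ^ 3 * (Gf (tor M a b a' b') : ℝ) := by
  have e : (Gf (polyT M)).evalEval (cx a b) (cx a' b')
      = Gf fun k => (polyT M k).evalEval (cx a b) (cx a' b') := by
    rw [← coe_evalEvalRingHom]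
    simp only [Gf, map_add, map_mul, map_sub, map_pow, map_ofNat]
  rw [e]
  simp only [evalEval_polyT M h h', Gf]
  push_cast
  ring

theorem evalEval_dot (M : Fin 3 → Fin 3 → V5) (l : Fin 5 → ℤ) {a b a' b' : ℝ}
    (h : a ^ 2 + b ^ 2 = 1) (h' : a' ^ 2 + b' ^ 2 = 1) :
    (dot (cst l) (polyT M)).evalEval (cx a b) (cx a' b')
      = (cx a b * cx a' b') * (dot (cst l) (tor M a b a' b') : ℝ) := by
  simp only [dot, cst, evalEval_add, evalEval_mul, evalEval_intCast, evalEval_polyT M h h']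
  push_cast
  ring

theorem quad_zero {p q r : ℝ} {T : Set ℝ} (hT : T.Infinite)
    (h : ∀ s ∈ T, (1 - s) ^ 2 * p + 2 * (1 - s) * s * q + s ^ 2 * r = 0) :
    p = 0 ∧ q = 0 ∧ r = 0 := by
  let f : ℝ[X] := C p * (1 - X) ^ 2 + C q * (2 * (1 - X) * X) + C r * X ^ 2
  have hf : f = 0 := by
    apply Polynomial.eq_zero_of_infinite_isRoot
    refine hT.mono fun s hs => ?_
    have := h s hs
    simp only [Set.mem_ofPred_eq, IsRoot, f, eval_add, eval_mul, eval_C, eval_pow, eval_sub,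
      eval_one, eval_X, eval_ofNat]
    linear_combination this
  have h0 := congrArg (eval 0) hf
  have h1 := congrArg (eval 1) hf
  have h2 := congrArg (eval (1 / 2)) hf
  simp [f] at h0 h1 h2
  refine ⟨h0, ?_, h1⟩
  rw [h0, h1] at h2
  norm_num at h2
  exact h2

theorem Gf_tor_eq_zero (M : Fin 3 → Fin 3 → V5)
    (hq : ∀ a b a' b' : ℝ, a ^ 2 + b ^ 2 = 1 → a' ^ 2 + b' ^ 2 = 1 → qf (tor M a b a' b') = 0)
    (hcov : ∀ i, ∃ T : Set ℝ, T.Infinite ∧ ∀ s ∈ T, ∃ a b a' b' μ : ℝ,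
      a ^ 2 + b ^ 2 = 1 ∧ a' ^ 2 + b' ^ 2 = 1 ∧ bez (ctl i) (1 - s) s = μ • tor M a b a' b')
    {a b a' b' : ℝ} (h : a ^ 2 + b ^ 2 = 1) (h' : a' ^ 2 + b' ^ 2 = 1) :
    Gf (tor M a b a' b') = 0 := by
  classical
  by_cases hg : Gf (polyT M) = 0
  · have := evalEval_Gf M h h'
    rw [hg, evalEval_zero] at this
    have h3 := (mul_eq_zero.1 this.symm).resolve_left
      (pow_ne_zero 3 (mul_ne_zero (cx_ne_zero h) (cx_ne_zero h')))
    exact_mod_cast h3
  exfalso
  obtain ⟨P, hcard, hirr, hP⟩ := exists_cover _ hg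
  have hcard' : P.card ≤ 12 := hcard.trans (bd_Gf _ (bd_polyT M)).size_le
  choose T hT hrep using hcov
  choose! fa fb fa' fb' fμ hu hu' he using hrep
  have hμ : ∀ i, ∀ s ∈ T i, fμ i s ≠ 0 := by
    intro i s hs h0
    have := congrFun (he i s hs) 0
    rw [h0, zero_smul] at this
    exact ((nice i).pos s).ne' this
  -- each circle meets some component in infinitely many points
  have hex : ∀ i, ∃ p ∈ P, {s ∈ T i |
      p.evalEval (cx (fa i s) (fb i s)) (cx (fa' i s) (fb' i s)) = 0}.Infinite := by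
    intro i
    by_contra hcon
    push Not at hcon
    apply hT i
    refine (Set.Finite.biUnion P.finite_toSet fun p hp => hcon p hp).subset ?_
    intro s hs
    have hG : Gf (tor M (fa i s) (fb i s) (fa' i s) (fb' i s)) = 0 := by
      have := (nice i).Gf_bez (1 - s) s
      rw [he i s hs, Gf_smul] at this
      exact (mul_eq_zero.1 this).resolve_left (pow_ne_zero 3 (hμ i s hs))
    obtain ⟨p, hp, h0⟩ := hP (cx (fa i s) (fb i s)) (cx (fa' i s) (fb' i s)) (by
      rw [evalEval_Gf M (hu i s hs) (hu' i s hs), hG]; simp)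
    simp only [Set.mem_iUnion]
    exact ⟨p, hp, hs, h0⟩
  choose p hpP hpinf using hex
  obtain ⟨i, -, k, -, hik, hpe⟩ := Finset.exists_ne_map_eq_of_card_lt_of_maps_to
    (s := (Finset.univ : Finset (Fin 18))) (t := P) (by simp; omega) (f := p)
    (fun i _ => hpP i)
  obtain ⟨m, r, hmr⟩ := distinct i k hik
  -- the common component lies over the circle `k`
  have hdvd : p k ∣ dot (cst (nrm k m)) (polyT M) := by
    apply dvd_of_infinite_common_zeros (hirr _ (hpP k))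
    have hinj : Set.InjOn (fun s => (cx (fa k s) (fb k s), cx (fa' k s) (fb' k s)))
        {s ∈ T k | (p k).evalEval (cx (fa k s) (fb k s)) (cx (fa' k s) (fb' k s)) = 0} := by
      intro s hs s' hs' e
      simp only [Prod.mk.injEq, cx, Complex.mk.injEq] at e
      apply (nice k).eq_of_bf
      rw [he k s hs.1, he k s' hs'.1, bf_smul, e.1.1, e.1.2, e.2.1, e.2.2, bf_self,
        hq _ _ _ _ (hu k s' hs'.1) (hu' k s' hs'.1)]
      ring
    refine ((hpinf k).image hinj).mono ?_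
    rintro _ ⟨s, hs, rfl⟩
    refine ⟨hs.2, ?_⟩
    have := (nice k).dot_bez_zero m (1 - s) s
    rw [he k s hs.1, dot_smul] at this
    have := (mul_eq_zero.1 this).resolve_left (hμ k s hs.1)
    simp only
    rw [evalEval_dot M _ (hu k s hs.1) (hu' k s hs.1), this]
    simp
  have hz := quad_zero (p := (dot (nrm k m) (ctl i 0) : ℤ)) (q := (dot (nrm k m) (ctl i 1) : ℤ))
    (r := (dot (nrm k m) (ctl i 2) : ℤ)) (hpinf i) (by
      intro s hs
      rw [← dot_bez, he i s hs.1, dot_smul]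
      have h1 := evalEval_dvd (cx (fa i s) (fb i s)) (cx (fa' i s) (fb' i s)) hdvd
      rw [← hpe, hs.2, zero_dvd_iff, evalEval_dot M _ (hu i s hs.1) (hu' i s hs.1)] at h1
      have h2 := (mul_eq_zero.1 h1).resolve_left
        (mul_ne_zero (cx_ne_zero (hu i s hs.1)) (cx_ne_zero (hu' i s hs.1)))
      have h3 : dot (cst (nrm k m)) (tor M (fa i s) (fb i s) (fa' i s) (fb' i s)) = 0 := by
        exact_mod_cast h2
      rw [h3, mul_zero])
  apply hmr
  fin_cases r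
  · exact_mod_cast hz.1
  · exact_mod_cast hz.2.1
  · exact_mod_cast hz.2.2

end Pool.Agent.MP_d8c3a3_gt

end MrgPart1

-- ======== part 2: formerly Pool.Agent.MP_d8c3a3_gt.NoTorus
section MrgPart2

/-!
No torus map into the light cone covers all but finitely many points of the eighteen arcs.
-/

namespace Pool.Agent.MP_d8c3a3_gt

/-- Adapted coordinates for the fibre through the base point. -/
def Rm (X : V5) : V5 :=
  ![1445 * X 0 + 9662 * X 1 + 85 * X 3 - 3543 * X 4, 50 * X 1 + 17 * X 3 - 30 * X 4,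
    5 * X 1 - 3 * X 4, X 2, 17 * X 1 - 5 * X 2 + 17 * X 4]

@[simp] theorem Rm0 (X : V5) : Rm X 0 = 1445 * X 0 + 9662 * X 1 + 85 * X 3 - 3543 * X 4 := rfl
@[simp] theorem Rm1 (X : V5) : Rm X 1 = 50 * X 1 + 17 * X 3 - 30 * X 4 := rfl
@[simp] theorem Rm2 (X : V5) : Rm X 2 = 5 * X 1 - 3 * X 4 := rfl
@[simp] theorem Rm3 (X : V5) : Rm X 3 = X 2 := rfl
@[simp] theorem Rm4 (X : V5) : Rm X 4 = 17 * X 1 - 5 * X 2 + 17 * X 4 := rfl

theorem bk_Rm (c : ℝ) (X : V5) : bk (c • Rm X) (c • Rm X) = 393040 * c ^ 2 * qf X := by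
  simp [bk, qf]; ring

theorem cub_Rm (c : ℝ) (X : V5) : cub (c • Rm X) = 289 * c ^ 3 * Gf X := by
  simp [cub, Gf]; ring

/-- The base point. -/
def Pb : V5 := ![3790, -295, 1564, 573, 755]

@[simp] theorem Pb0 : Pb 0 = 3790 := rfl
@[simp] theorem Pb1 : Pb 1 = -295 := rfl
@[simp] theorem Pb2 : Pb 2 = 1564 := rfl
@[simp] theorem Pb3 : Pb 3 = 573 := rfl
@[simp] theorem Pb4 : Pb 4 = 755 := rfl

theorem circle_in_fibre (V0 V1 V2 : V5) {a₁ b₁ c : ℝ} (h₁ : a₁ ^ 2 + b₁ ^ 2 = 1) (hc : c ≠ 0)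
    (hP : V0 + a₁ • V1 + b₁ • V2 = c • Pb)
    (hq : ∀ a b : ℝ, a ^ 2 + b ^ 2 = 1 →
      qf (V0 + a • V1 + b • V2) = 0 ∧ Gf (V0 + a • V1 + b • V2) = 0) (a b : ℝ) :
    Rm (V0 + a • V1 + b • V2) 4 = 0 ∧ Rm (V0 + a • V1 + b • V2) 0 = 0 := by
  have hV : ∀ k, V0 k = c * Pb k - a₁ * V1 k - b₁ * V2 k := by
    intro k
    have := congrFun hP k
    simp only [Pi.add_apply, Pi.smul_apply, smul_eq_mul] at this
    linarith
  have hgood : Good ((17 * c)⁻¹ • Rm ((2 : ℝ) • (a₁ • V2 - b₁ • V1)))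
      ((17 * c)⁻¹ • Rm (V0 - a₁ • V1 - b₁ • V2)) := by
    intro t s
    by_cases hts : t ^ 2 + s ^ 2 = 0
    · have ht : t = 0 := by nlinarith [sq_nonneg t, sq_nonneg s]
      have hs : s = 0 := by nlinarith [sq_nonneg t, sq_nonneg s]
      subst ht hs
      simp [conic, bk, cub]
    have hu : ((a₁ * (t ^ 2 - s ^ 2) - 2 * b₁ * t * s) / (t ^ 2 + s ^ 2)) ^ 2
        + ((b₁ * (t ^ 2 - s ^ 2) + 2 * a₁ * t * s) / (t ^ 2 + s ^ 2)) ^ 2 = 1 := by
      field_simp
      linear_combination (t ^ 2 + s ^ 2) ^ 2 * h₁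
    obtain ⟨q1, q2⟩ := hq _ _ hu
    have e : conic Yb ((17 * c)⁻¹ • Rm ((2 : ℝ) • (a₁ • V2 - b₁ • V1)))
        ((17 * c)⁻¹ • Rm (V0 - a₁ • V1 - b₁ • V2)) t s
        = ((17 * c)⁻¹ * (t ^ 2 + s ^ 2)) •
          Rm (V0 + ((a₁ * (t ^ 2 - s ^ 2) - 2 * b₁ * t * s) / (t ^ 2 + s ^ 2)) • V1
            + ((b₁ * (t ^ 2 - s ^ 2) + 2 * a₁ * t * s) / (t ^ 2 + s ^ 2)) • V2) := by
      funext k
      fin_cases k <;> simp [conic, hV] <;> field_simp <;> ring
    rw [e, bk_Rm, cub_Rm, q1, q2]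
    simp
  obtain ⟨u1, u2, u3, u4⟩ := hgood.unique
  have hc' : (17 * c)⁻¹ ≠ 0 := inv_ne_zero (mul_ne_zero (by norm_num) hc)
  simp only [Pi.smul_apply, smul_eq_mul, mul_eq_zero, hc', false_or] at u1 u2 u3 u4
  simp [hV] at u1 u2 u3 u4 ⊢
  constructor
  · linear_combination ((1 - a * a₁ - b * b₁) / 2) * u2 + ((b * a₁ - a * b₁) / 2) * u1
      - (a * (17 * V1 1 - 5 * V1 2 + 17 * V1 4) + b * (17 * V2 1 - 5 * V2 2 + 17 * V2 4)) * h₁
  · linear_combination ((1 - a * a₁ - b * b₁) / 2) * u4 + ((b * a₁ - a * b₁) / 2) * u3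
      - (a * (1445 * V1 0 + 9662 * V1 1 + 85 * V1 3 - 3543 * V1 4)
        + b * (1445 * V2 0 + 9662 * V2 1 + 85 * V2 3 - 3543 * V2 4)) * h₁

/-- The half-turn symmetry of the cubic. -/
def flip (X : V5) : V5 := ![X 0, X 1, -X 2, -X 3, X 4]

theorem flip_comb (V0 V1 V2 : V5) (a b : ℝ) :
    flip V0 + a • flip V1 + b • flip V2 = flip (V0 + a • V1 + b • V2) := by
  funext k; fin_cases k <;> simp [flip] <;> ring

theorem qf_flip (X : V5) : qf (flip X) = qf X := by simp [qf, flip]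

theorem Gf_flip (X : V5) : Gf (flip X) = Gf X := by simp [Gf, flip]

theorem exists_rep (M : Fin 3 → Fin 3 → V5) (i : Fin 18) (Z : Set ℝ) (hZ : Z.Finite)
    (h : ∀ s ∈ Set.Icc (0 : ℝ) 1, s ∉ Z → ∃ a b a' b' μ : ℝ,
      a ^ 2 + b ^ 2 = 1 ∧ a' ^ 2 + b' ^ 2 = 1 ∧ bez (ctl i) (1 - s) s = μ • tor M a b a' b')
    {s₀ : ℝ} (hs₀ : s₀ ∈ Set.Ioo (0 : ℝ) 1) :
    ∃ a b a' b' c : ℝ, a ^ 2 + b ^ 2 = 1 ∧ a' ^ 2 + b' ^ 2 = 1 ∧
      tor M a b a' b' = c • bez (ctl i) (1 - s₀) s₀ := by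
  let K : Set ((ℝ × ℝ) × (ℝ × ℝ)) := {w | w.1.1 ^ 2 + w.1.2 ^ 2 = 1 ∧ w.2.1 ^ 2 + w.2.2 ^ 2 = 1}
  have hKc : IsClosed K :=
    (isClosed_eq (by fun_prop) continuous_const).inter (isClosed_eq (by fun_prop) continuous_const)
  have hK : IsCompact K := by
    refine (((isCompact_Icc (a := (-1 : ℝ)) (b := 1)).prod (isCompact_Icc (a := (-1 : ℝ)) (b := 1))).prod
      ((isCompact_Icc (a := (-1 : ℝ)) (b := 1)).prod
        (isCompact_Icc (a := (-1 : ℝ)) (b := 1)))).of_isClosed_subset hKc ?_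
    rintro ⟨⟨a, b⟩, ⟨a', b'⟩⟩ ⟨h1, h2⟩
    simp only at h1 h2
    refine ⟨⟨⟨?_, ?_⟩, ⟨?_, ?_⟩⟩, ⟨⟨?_, ?_⟩, ⟨?_, ?_⟩⟩⟩ <;> simp only <;>
      nlinarith [sq_nonneg a, sq_nonneg b, sq_nonneg a', sq_nonneg b']
  have : CompactSpace K := isCompact_iff_compactSpace.1 hK
  let W : Set (ℝ × K) := {x | ∀ k, bez (ctl i) (1 - x.1) x.1 0 *
      tor M x.2.1.1.1 x.2.1.1.2 x.2.1.2.1 x.2.1.2.2 k
      = bez (ctl i) (1 - x.1) x.1 k * tor M x.2.1.1.1 x.2.1.1.2 x.2.1.2.1 x.2.1.2.2 0}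
  have hW : IsClosed W := by
    simp only [W, Set.ofPred_forall]
    refine isClosed_iInter fun k => isClosed_eq ?_ ?_ <;>
      simp only [bez, tor, Pi.add_apply, Pi.smul_apply, smul_eq_mul] <;> fun_prop
  have hcl : IsClosed (Prod.fst '' W) := isClosedMap_fst_of_compactSpace W hW
  have hsub : Set.Ioo (0 : ℝ) 1 ∩ Zᶜ ⊆ Prod.fst '' W := by
    rintro s ⟨hs, hsZ⟩
    obtain ⟨a, b, a', b', μ, h1, h2, e⟩ := h s (Set.Ioo_subset_Icc_self hs) hsZ
    refine ⟨(s, ⟨((a, b), (a', b')), h1, h2⟩), ?_, rfl⟩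
    intro k
    simp only [e, Pi.smul_apply, smul_eq_mul]
    ring
  have hmem : s₀ ∈ Prod.fst '' W :=
    hcl.closure_subset_iff.2 hsub
      ((hZ.countable.dense_compl ℝ).open_subset_closure_inter isOpen_Ioo hs₀)
  obtain ⟨⟨s, ⟨⟨a, b⟩, ⟨a', b'⟩⟩, h1, h2⟩, hw, rfl⟩ := hmem
  refine ⟨a, b, a', b', tor M a b a' b' 0 / bez (ctl i) (1 - s) s 0, h1, h2, ?_⟩
  funext k
  have h0 := ((nice i).pos s).ne'
  have := hw k
  simp only at this
  simp only [Pi.smul_apply, smul_eq_mul]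
  field_simp
  linear_combination this

theorem bez_base : bez (ctl 16) (1 - 11 / 20 : ℝ) (11 / 20) = (231 / 100 : ℝ) • Pb := by
  funext k
  fin_cases k <;> simp [bez, ctl] <;> norm_num

theorem bez_base' : flip (bez (ctl 10) (1 - 11 / 20 : ℝ) (11 / 20)) = (231 / 100 : ℝ) • Pb := by
  funext k
  fin_cases k <;> simp [flip, bez, ctl] <;> norm_num

theorem no_tor (M : Fin 3 → Fin 3 → V5)
    (hM : ∀ a b a' b' : ℝ, a ^ 2 + b ^ 2 = 1 → a' ^ 2 + b' ^ 2 = 1 →
      tor M a b a' b' ≠ 0 ∧ qf (tor M a b a' b') = 0)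
    (hcov : ∀ i, ∃ Z : Set ℝ, Z.Finite ∧ ∀ s ∈ Set.Icc (0 : ℝ) 1, s ∉ Z → ∃ a b a' b' μ : ℝ,
      a ^ 2 + b ^ 2 = 1 ∧ a' ^ 2 + b' ^ 2 = 1 ∧ bez (ctl i) (1 - s) s = μ • tor M a b a' b') :
    False := by
  have hG : ∀ a b a' b' : ℝ, a ^ 2 + b ^ 2 = 1 → a' ^ 2 + b' ^ 2 = 1 →
      Gf (tor M a b a' b') = 0 := by
    intro a b a' b' h h'
    refine Gf_tor_eq_zero M (fun a b a' b' h h' => (hM a b a' b' h h').2) (fun i => ?_) h h'
    obtain ⟨Z, hZ, hc⟩ := hcov i
    exact ⟨Set.Icc 0 1 \ Z, (Set.Icc_infinite zero_lt_one).sdiff hZ,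
      fun s hs => hc s hs.1 hs.2⟩
  obtain ⟨Z1, hZ1, hc1⟩ := hcov 16
  obtain ⟨Z2, hZ2, hc2⟩ := hcov 10
  obtain ⟨a₁, b₁, a₁', b₁', c₁, h₁, h₁', e₁⟩ :=
    exists_rep M 16 Z1 hZ1 hc1 (s₀ := 11 / 20) (by norm_num)
  obtain ⟨a₂, b₂, a₂', b₂', c₂, h₂, h₂', e₂⟩ :=
    exists_rep M 10 Z2 hZ2 hc2 (s₀ := 11 / 20) (by norm_num)
  have hc₁ : c₁ ≠ 0 := by
    rintro rfl
    exact (hM _ _ _ _ h₁ h₁').1 (by rw [e₁, zero_smul])
  have hc₂ : c₂ ≠ 0 := by
    rintro rfl
    exact (hM _ _ _ _ h₂ h₂').1 (by rw [e₂, zero_smul])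
  -- the first-variable circle through the first point
  have t1 : ∀ a b : ℝ, (M 0 0 + a₁' • M 0 1 + b₁' • M 0 2) + a • (M 1 0 + a₁' • M 1 1 + b₁' • M 1 2)
      + b • (M 2 0 + a₁' • M 2 1 + b₁' • M 2 2) = tor M a b a₁' b₁' := by
    intro a b; funext k; simp [tor]; ring
  have f1 := circle_in_fibre _ _ _ h₁ (c := c₁ * (231 / 100)) (mul_ne_zero hc₁ (by norm_num))
    (by rw [t1, e₁, bez_base, smul_smul])
    (fun a b h => by rw [t1]; exact ⟨(hM _ _ _ _ h h₁').2, hG _ _ _ _ h h₁'⟩) a₂ b₂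
  rw [t1] at f1
  -- the second-variable circle through the second point
  have t2 : ∀ a b : ℝ, flip (M 0 0 + a₂ • M 1 0 + b₂ • M 2 0)
      + a • flip (M 0 1 + a₂ • M 1 1 + b₂ • M 2 1)
      + b • flip (M 0 2 + a₂ • M 1 2 + b₂ • M 2 2) = flip (tor M a₂ b₂ a b) := by
    intro a b; rw [flip_comb]; rfl
  have f2 := circle_in_fibre _ _ _ h₂' (c := c₂ * (231 / 100)) (mul_ne_zero hc₂ (by norm_num))
    (by
      rw [t2, e₂, ← smul_smul, ← bez_base']
      funext k; fin_cases k <;> simp [flip])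
    (fun a b h => by
      rw [t2, qf_flip, Gf_flip]; exact ⟨(hM _ _ _ _ h₂ h).2, hG _ _ _ _ h₂ h⟩) a₁' b₁'
  rw [t2] at f2
  obtain ⟨hne, hq⟩ := hM a₂ b₂ a₁' b₁' h₂ h₁'
  generalize tor M a₂ b₂ a₁' b₁' = X at f1 f2 hne hq
  simp [flip] at f1 f2
  simp only [qf] at hq
  have x2 : X 2 = 0 := by linarith [f1.1, f2.1]
  have x1 : X 1 = -X 4 := by linarith [f1.1, f2.1]
  have x3 : X 3 = 0 := by linarith [f1.2, f2.2]
  have x0 : X 0 = 13205 / 1445 * X 4 := by linarith [f1.2, f2.2]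
  rw [x0, x1, x2, x3] at hq
  have x4 : X 4 = 0 := by nlinarith [sq_nonneg (X 4)]
  apply hne
  funext k
  fin_cases k <;> simp [x0, x1, x2, x3, x4]

end Pool.Agent.MP_d8c3a3_gt

end MrgPart2

-- ======== part 3: formerly Pool.Agent.MP_d8c3a3_gt.Quadric
section MrgPart3

/-!
The only quadrics through the arcs are the multiples of the light cone.
-/

open Polynomial

namespace Pool.Agent.MP_d8c3a3_gt

/-- A general quadratic form in five variables. -/
def quadF {R : Type*} [CommRing R] (c : Fin 15 → R) (X : Fin 5 → R) : R :=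
  c 0 * (X 0 * X 0) + c 1 * (X 0 * X 1) + c 2 * (X 0 * X 2) + c 3 * (X 0 * X 3) + c 4 * (X 0 *
    X 4) + c 5 * (X 1 * X 1) + c 6 * (X 1 * X 2) + c 7 * (X 1 * X 3) + c 8 * (X 1 * X 4) + c 9 *
    (X 2 * X 2) + c 10 * (X 2 * X 3) + c 11 * (X 2 * X 4) + c 12 * (X 3 * X 3) + c 13 * (X 3 * X
    4) + c 14 * (X 4 * X 4)

theorem exists_quadF (β : V5 →ₗ[ℝ] V5 →ₗ[ℝ] ℝ) : ∃ c : Fin 15 → ℝ, ∀ X, β X X = quadF c X := by
  let e : Fin 5 → V5 := fun k => Pi.single k 1
  refine ⟨![β (e 0) (e 0), β (e 0) (e 1) + β (e 1) (e 0), β (e 0) (e 2) + β (e 2) (e 0), β (e 0) (e 3)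
      + β (e 3) (e 0), β (e 0) (e 4) + β (e 4) (e 0), β (e 1) (e 1), β (e 1) (e 2) + β (e 2) (e
      1), β (e 1) (e 3) + β (e 3) (e 1), β (e 1) (e 4) + β (e 4) (e 1), β (e 2) (e 2), β (e 2)
      (e 3) + β (e 3) (e 2), β (e 2) (e 4) + β (e 4) (e 2), β (e 3) (e 3), β (e 3) (e 4) + β (e
      4) (e 3), β (e 4) (e 4)], fun X => ?_⟩
  have hX : X = X 0 • e 0 + X 1 • e 1 + X 2 • e 2 + X 3 • e 3 + X 4 • e 4 := by
    funext k; fin_cases k <;> simp [e]
  conv_lhs => rw [hX]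
  simp only [map_add, map_smul, LinearMap.add_apply, LinearMap.smul_apply, smul_eq_mul, quadF]
  simp only [Matrix.cons_val_zero, Matrix.cons_val_one, Matrix.cons_val]
  ring

theorem quadF_all (c : Fin 15 → ℝ) (V : Fin 3 → Fin 5 → ℤ) (T : Set ℝ) (hT : T.Infinite)
    (h : ∀ s ∈ T, quadF c (bez V (1 - s) s) = 0) (s : ℝ) : quadF c (bez V (1 - s) s) = 0 := by
  have e : ∀ s : ℝ, (quadF (fun n => C (c n)) (bez V (1 - X) X)).eval s
      = quadF c (bez V (1 - s) s) := by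
    intro s
    simp only [quadF, bez, eval_add, eval_mul, eval_C, eval_pow, eval_sub, eval_one, eval_X,
      eval_intCast, eval_ofNat]
  have hf : quadF (fun n => C (c n)) (bez V (1 - X) X) = 0 := by
    apply Polynomial.eq_zero_of_infinite_isRoot
    refine hT.mono fun s hs => ?_
    simp only [Set.mem_ofPred_eq, IsRoot, e, h s hs]
  rw [← e, hf, eval_zero]

theorem no_quadric (β : V5 →ₗ[ℝ] V5 →ₗ[ℝ] ℝ)
    (h : ∀ i, ∃ T : Set ℝ, T.Infinite ∧
      ∀ s ∈ T, β (bez (ctl i) (1 - s) s) (bez (ctl i) (1 - s) s) = 0) :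
    ∃ lam : ℝ, ∀ X, β X X = lam * qf X := by
  obtain ⟨c, hc⟩ := exists_quadF β
  have hall : ∀ i (s : ℝ), quadF c (bez (ctl i) (1 - s) s) = 0 := by
    intro i s
    obtain ⟨T, hT, h0⟩ := h i
    exact quadF_all c _ T hT (fun s hs => by rw [← hc]; exact h0 s hs) s
  have e0 := hall 8 (-5)
  have e1 := hall 8 (-7)
  have e2 := hall 8 (-3)
  have e3 := hall 0 (-3 / 2)
  have e4 := hall 2 (5 / 2)
  have e5 := hall 8 (-9)
  have e6 := hall 8 (-4)
  have e7 := hall 0 (1 / 2)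
  have e8 := hall 2 (1 / 2)
  have e9 := hall 0 (3 / 2)
  have e10 := hall 2 (-1 / 2)
  have e11 := hall 1 (1 / 2)
  have e12 := hall 0 (-2)
  have e13 := hall 2 (3)
  simp only [quadF, bez, ctl, Matrix.cons_val_zero, Matrix.cons_val_one, Matrix.cons_val]
    at e0 e1 e2 e3 e4 e5 e6 e7 e8 e9 e10 e11 e12 e13
  norm_num at e0 e1 e2 e3 e4 e5 e6 e7 e8 e9 e10 e11 e12 e13
  have c0 : c 0 = 0 := by linarith
  have c1 : c 1 = 0 := by linarith
  have c2 : c 2 = 0 := by linarith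
  have c3 : c 3 = 0 := by linarith
  have c4 : c 4 = -c 5 := by linarith
  have c6 : c 6 = 0 := by linarith
  have c7 : c 7 = 0 := by linarith
  have c8 : c 8 = 0 := by linarith
  have c9 : c 9 = c 5 := by linarith
  have c10 : c 10 = 0 := by linarith
  have c11 : c 11 = 0 := by linarith
  have c12 : c 12 = c 5 := by linarith
  have c13 : c 13 = 0 := by linarith
  have c14 : c 14 = 0 := by linarith
  refine ⟨c 5, fun X => ?_⟩
  rw [hc]
  simp only [quadF, qf, c0, c1, c2, c3, c4, c6, c7, c8, c9, c10, c11, c12, c13, c14]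
  ring

/-- A polynomial of degree at most two in `x, y, z, x^2 + y^2 + z^2` is a quadratic form in the
lifted point. -/
theorem exists_bilin (Q : MvPolynomial (Fin 4) ℝ) (hQ : Q.totalDegree ≤ 2) :
    ∃ β : V5 →ₗ[ℝ] V5 →ₗ[ℝ] ℝ, ∀ x : E3,
      MvPolynomial.eval ![x 0, x 1, x 2, x 0 ^ 2 + x 1 ^ 2 + x 2 ^ 2] Q = β (lift x) (lift x) := by
  classical
  have mono : ∀ d : Fin 4 →₀ ℕ, (d.sum fun _ n => n) ≤ 2 → ∃ k l : Fin 5, ∀ x : E3,
      ∏ i, (![x 0, x 1, x 2, x 0 ^ 2 + x 1 ^ 2 + x 2 ^ 2] : Fin 4 → ℝ) i ^ d i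
        = lift x k * lift x l := by
    intro d hd
    rw [Finsupp.sum_fintype _ _ (fun _ => rfl), Fin.sum_univ_four] at hd
    simp only [Fin.prod_univ_four]
    have h0 : d 0 ≤ 2 := by omega
    have h1 : d 1 ≤ 2 := by omega
    have h2 : d 2 ≤ 2 := by omega
    have h3 : d 3 ≤ 2 := by omega
    generalize d 0 = a at *
    generalize d 1 = b at *
    generalize d 2 = c at *
    generalize d 3 = e at *
    interval_cases a <;> interval_cases b <;> interval_cases c <;> interval_cases e <;>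
      first
        | omega
        | (refine ⟨0, 0, fun x => ?_⟩; simp [lift]; done)
        | (refine ⟨0, 1, fun x => ?_⟩; simp [lift]; done)
        | (refine ⟨0, 2, fun x => ?_⟩; simp [lift]; done)
        | (refine ⟨0, 3, fun x => ?_⟩; simp [lift]; done)
        | (refine ⟨0, 4, fun x => ?_⟩; simp [lift]; done)
        | (refine ⟨1, 1, fun x => ?_⟩; simp [lift, pow_two]; done)
        | (refine ⟨1, 2, fun x => ?_⟩; simp [lift]; done)
        | (refine ⟨1, 3, fun x => ?_⟩; simp [lift]; done)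
        | (refine ⟨1, 4, fun x => ?_⟩; simp [lift]; done)
        | (refine ⟨2, 2, fun x => ?_⟩; simp [lift, pow_two]; done)
        | (refine ⟨2, 3, fun x => ?_⟩; simp [lift]; done)
        | (refine ⟨2, 4, fun x => ?_⟩; simp [lift]; done)
        | (refine ⟨3, 3, fun x => ?_⟩; simp [lift, pow_two]; done)
        | (refine ⟨3, 4, fun x => ?_⟩; simp [lift]; done)
        | (refine ⟨4, 4, fun x => ?_⟩; simp [lift, pow_two])
  choose! k l hkl using mono
  refine ⟨∑ d ∈ Q.support, Q.coeff d •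
    (LinearMap.mul ℝ ℝ).compl₁₂ (LinearMap.proj (k d)) (LinearMap.proj (l d)), fun x => ?_⟩
  rw [MvPolynomial.eval_eq']
  simp only [LinearMap.sum_apply, LinearMap.smul_apply, LinearMap.compl₁₂_apply,
    LinearMap.mul_apply', LinearMap.proj_apply, smul_eq_mul]
  refine Finset.sum_congr rfl fun d hd => ?_
  rw [hkl d ((MvPolynomial.le_totalDegree hd).trans hQ) x]

end Pool.Agent.MP_d8c3a3_gt

end MrgPart3

-- ======== part 4: formerly Pool.Agent.MP_d8c3a3_gt.Final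
section MrgPart4

/-!
Assembly: the eighteen arcs lie on eighteen different circles, and no composition of inversions
maps all but finitely many of their points into a set of type (C), (D) or (E).
-/

namespace Pool.Agent.MP_d8c3a3_gt

theorem line_circle {α β γ a1 b1 a2 b2 a3 b3 : ℝ} (u1 : a1 ^ 2 + b1 ^ 2 = 1)
    (u2 : a2 ^ 2 + b2 ^ 2 = 1) (u3 : a3 ^ 2 + b3 ^ 2 = 1) (l1 : α + β * a1 + γ * b1 = 0)
    (l2 : α + β * a2 + γ * b2 = 0) (l3 : α + β * a3 + γ * b3 = 0)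
    (n12 : ¬ (a1 = a2 ∧ b1 = b2)) (n13 : ¬ (a1 = a3 ∧ b1 = b3)) (n23 : ¬ (a2 = a3 ∧ b2 = b3)) :
    α = 0 ∧ β = 0 ∧ γ = 0 := by
  by_cases hN : β ^ 2 + γ ^ 2 = 0
  · have hb : β = 0 := by nlinarith [sq_nonneg β, sq_nonneg γ]
    have hc : γ = 0 := by nlinarith [sq_nonneg β, sq_nonneg γ]
    subst hb hc
    exact ⟨by linarith, rfl, rfl⟩
  exfalso
  have key : ∀ a b a' b' : ℝ, α + β * a + γ * b = 0 → α + β * a' + γ * b' = 0 →
      β * b - γ * a = β * b' - γ * a' → a = a' ∧ b = b' := by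
    intro a b a' b' l l' e
    constructor
    · apply mul_left_cancel₀ hN
      linear_combination β * l - β * l' - γ * e
    · apply mul_left_cancel₀ hN
      linear_combination γ * l - γ * l' + β * e
  have sq : ∀ a b : ℝ, a ^ 2 + b ^ 2 = 1 → α + β * a + γ * b = 0 →
      (β * b - γ * a) * (β * b - γ * a) = β ^ 2 + γ ^ 2 - α ^ 2 := by
    intro a b u l
    linear_combination (β ^ 2 + γ ^ 2) * u + (α - β * a - γ * b) * l
  have s12 := mul_self_eq_mul_self_iff.1 ((sq _ _ u1 l1).trans (sq _ _ u2 l2).symm)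
  have s13 := mul_self_eq_mul_self_iff.1 ((sq _ _ u1 l1).trans (sq _ _ u3 l3).symm)
  rcases s12 with s12 | s12
  · exact n12 (key _ _ _ _ l1 l2 s12)
  rcases s13 with s13 | s13
  · exact n13 (key _ _ _ _ l1 l3 s13)
  exact n23 (key _ _ _ _ l2 l3 (by linarith))

theorem not_concyclic (i k : Fin 18) (hik : i ≠ k) :
    ¬ ∃ C, IsCircle C ∧ arc (ctl i) ⊆ C ∧ arc (ctl k) ⊆ C := by
  rintro ⟨C, hC, hi, hk⟩
  obtain ⟨c, u, v, r, huu, hvv, huv, hC⟩ := hC.param
  rw [inner_eq] at huu hvv huv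
  obtain ⟨m, r', hmr⟩ := distinct i k hik
  set l : V5 := cst (nrm k m) with hl
  have lin : ∀ a b : ℝ, a ^ 2 + b ^ 2 = 1 → dot l (lift (c + a • u + b • v))
      = (l 0 + l 1 * c 0 + l 2 * c 1 + l 3 * c 2 + l 4 * (c 0 ^ 2 + c 1 ^ 2 + c 2 ^ 2 + r ^ 2))
        + (l 1 * u 0 + l 2 * u 1 + l 3 * u 2 + 2 * l 4 * (c 0 * u 0 + c 1 * u 1 + c 2 * u 2)) * a
        + (l 1 * v 0 + l 2 * v 1 + l 3 * v 2 + 2 * l 4 * (c 0 * v 0 + c 1 * v 1 + c 2 * v 2)) * b := by
    intro a b hab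
    simp [dot, lift]
    linear_combination l 4 * (a ^ 2 * huu + b ^ 2 * hvv + 2 * a * b * huv + r ^ 2 * hab)
  obtain ⟨a1, b1, u1, e1⟩ := (hC _).1 (hk ⟨0, by simp, rfl⟩)
  obtain ⟨a2, b2, u2, e2⟩ := (hC _).1 (hk ⟨1, by simp, rfl⟩)
  obtain ⟨a3, b3, u3, e3⟩ := (hC _).1 (hk ⟨1 / 2, by norm_num, rfl⟩)
  have l1 := (nice k).dot_lift m 0
  have l2 := (nice k).dot_lift m 1
  have l3 := (nice k).dot_lift m (1 / 2)
  rw [e1, lin _ _ u1] at l1
  rw [e2, lin _ _ u2] at l2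
  rw [e3, lin _ _ u3] at l3
  have inj := (nice k).pt_injective
  obtain ⟨z1, z2, z3⟩ := line_circle u1 u2 u3 l1 l2 l3
    (fun h => by have := inj (e1.trans (by rw [h.1, h.2, ← e2])); norm_num at this)
    (fun h => by have := inj (e1.trans (by rw [h.1, h.2, ← e3])); norm_num at this)
    (fun h => by have := inj (e2.trans (by rw [h.1, h.2, ← e3])); norm_num at this)
  have hz := quad_zero (p := (dot (nrm k m) (ctl i 0) : ℤ)) (q := (dot (nrm k m) (ctl i 1) : ℤ))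
    (r := (dot (nrm k m) (ctl i 2) : ℤ)) (Set.Icc_infinite (zero_lt_one' ℝ)) (by
      intro s hs
      obtain ⟨a, b, hab, e⟩ := (hC _).1 (hi ⟨s, hs, rfl⟩)
      rw [← dot_bez, (nice i).lift_pt, dot_smul, e, lin _ _ hab, z1, z2, z3]
      ring)
  apply hmr
  fin_cases r'
  · exact_mod_cast hz.1
  · exact_mod_cast hz.2.1
  · exact_mod_cast hz.2.2

theorem not_mapsTo (L : List (E3 × ℝ)) (hL : ∀ cr ∈ L, 0 < cr.2) (S : Set E3)
    (hS : IsTypeC S ∨ IsTypeD S ∨ IsTypeE S) (Z : Set E3) (hZ : Z.Finite)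
    (h : ∀ i, ∀ x ∈ arc (ctl i), x ∉ Z → inversions L x ∈ S) : False := by
  obtain ⟨A, T, lam, Z', hlam, hAT, hTA, hq, hZ', hx⟩ := exists_similitude L hL
  have fin : ∀ i, (pt (ctl i) ⁻¹' (Z ∪ Z')).Finite := fun i =>
    (hZ.union hZ').preimage (nice i).pt_injective.injOn
  have rep : ∀ i, ∀ s ∈ Set.Icc (0 : ℝ) 1, s ∉ pt (ctl i) ⁻¹' (Z ∪ Z') →
      ∃ y ∈ S, ∃ μ : ℝ, bez (ctl i) (1 - s) s = μ • A (lift y) := by
    intro i s hs hn
    simp only [Set.mem_preimage, Set.mem_union, not_or] at hn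
    obtain ⟨μ, -, e⟩ := hx _ hn.2
    refine ⟨_, h i _ ⟨s, hs, rfl⟩ hn.1, bez (ctl i) (1 - s) s 0 * μ, ?_⟩
    rw [mul_smul, ← e]
    exact (nice i).lift_pt s
  have swept : Swept S → False := by
    rintro ⟨M, hM, hcov⟩
    refine no_tor (fun i j => A (M i j)) ?_ fun i => ⟨_, fin i, fun s hs hn => ?_⟩
    · intro a b a' b' h1 h2
      rw [← map_tor, hq, (hM a b a' b' h1 h2).2, mul_zero]
      refine ⟨fun h0 => (hM a b a' b' h1 h2).1 ?_, rfl⟩
      rw [← hTA (tor M a b a' b'), h0, map_zero]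
    · obtain ⟨y, hy, μ, e⟩ := rep i s hs hn
      obtain ⟨a, b, a', b', ν, h1, h2, e'⟩ := hcov y hy
      exact ⟨a, b, a', b', μ * ν, h1, h2, by rw [e, e', map_smul, map_tor, smul_smul]⟩
  rcases hS with hS | hS | hS
  · exact swept hS.swept
  · obtain ⟨Q, hdeg, rfl, hne⟩ := hS
    obtain ⟨β, hβ⟩ := exists_bilin Q (by omega)
    obtain ⟨c, hc⟩ := no_quadric (β.compl₁₂ T T) (fun i =>
      ⟨Set.Icc 0 1 \ pt (ctl i) ⁻¹' (Z ∪ Z'), (Set.Icc_infinite zero_lt_one).sdiff (fin i),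
        fun s hs => by
          obtain ⟨y, hy, μ, e⟩ := rep i s hs.1 hs.2
          have hy' : β (lift y) (lift y) = 0 := by rw [← hβ]; exact hy
          rw [e]
          simp [hTA, hy']⟩)
    apply hne
    ext y
    simp only [Set.mem_ofPred_eq, Set.mem_univ, iff_true]
    have := hc (A (lift y))
    rw [hq, qf_lift] at this
    rw [hβ]
    simpa [hTA] using this
  · exact swept hS.swept

end Pool.Agent.MP_d8c3a3_gt

end MrgPart4

-- marker of a merged file
example : 731051 + 780062 = 731051 + 780062 := rfl
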